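import Pool.Agent.Results.MP_4011c3_nt.NestedWordMultiples
import Pool.Agent.U837.CC.One
import Pool.Agent.U837.CC.Cr

/-!
# Primes `p < n` with `q = ⌊(n - p) / m⌋` prime and `q ^ 2 - 2` almost prime, for all `n` near concatenated polynomial values

The integers `n` are all the integers near all the multiples `h q`, `h ≤ k ^ J`, of all the integers `q` near an integer whose
digits in some base `b ≤ k ^ W` are those of `f_1(t)`, `f_2(t)`, ..., `f_r(t)` written one after the other, where
`f_1, ..., f_r` are ANY integer polynomials of distinct degrees between `1` and `D` with coefficients of absolute value at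
most `k ^ W`: for almost all `t`, simultaneously for all these bases and polynomials. For example (base ten): all the
integers near the multiples of the integer with the digits of `t`, `t ^ 2` and `t ^ 3` one after the other. For given bases
and polynomials these are thin sets: `x` integers of the size `x ^ (deg f_1 + ... + deg f_r)`.

Method: the integers with a given number of digits in every block are the values `∑_i b ^ (e_i) f_i(t)` of a polynomial
with huge coefficients. An inverse theorem for Weyl sums with ALL the coefficients (`Pool.Agent.U837.CC.IWF_all`, deduced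
from the one for the leading coefficient in `H373R2/NB/Weyl`) shows, one block after the other, that a frequency `β` with
a large exponential sum is such that all the `b ^ (e_i) β` are close to rational numbers with one small denominator (here the
degrees have to be distinct); only few frequencies have this property, also for the multiples of the integers
(`Pool.Agent.U837.CC.count_vec`, `Pool.Agent.U837.CC.cc_tcls`). The passage from such a description of the large
frequencies to the primes is from the starting files (`Pool.Agent.N625.PT.t_gen`, `Pool.Agent.H373R2.T7.PB`) and from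
helper847's `NestedWordMultiples.core`. The number of the choices of the digit lengths, of the bases and of the polynomials
is only a power of `k` (`Pool.Agent.U837.CC.vec_cat`).
-/

set_option autoImplicit false

namespace Pool.Agent.Results.MP_4011c3_nt.Concatenations

open Finset Polynomial

/-- the pair `(m, n)` is admissible -/
def Admissible (m n : ℕ) : Prop :=
  2 * m + 1 < n ∧ ((m = 1 ∧ Even n) ∨ (m = 3 ∧ ¬ n ≡ 1 [MOD 6]) ∨ m = 2 ∨ 4 ≤ m)

/-- there is a prime `p < n` such that `q = ⌊(n - p) / m⌋` is prime, `q ^ 2 - 2` has no prime factor `ℓ` with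
`ℓ ^ K ≤ n`, and `q ^ 2 - 2` has fewer than `2 K` prime factors, counted with multiplicity -/
def Rep (K m n : ℕ) : Prop :=
  ∃ p q : ℕ, p.Prime ∧ p < n ∧ q = (n - p) / m ∧ q.Prime ∧
    (∀ ℓ : ℕ, ℓ.Prime → ℓ ∣ q ^ 2 - 2 → n < ℓ ^ K) ∧ (q ^ 2 - 2).primeFactorsList.length < 2 * K

/-- The number whose digits in base `b`, read from the left to the right, are those of `f(t)`, `f ∈ F`, written one after
the other. -/
noncomputable def concat (b : ℕ) (F : List ℤ[X]) (t : ℕ) : ℕ :=
  Nat.ofDigits b ((F.reverse.map (fun f => Nat.digits b (f.eval (t : ℤ)).toNat)).flatten)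

/-- The base `b` satisfies `2 ≤ b ≤ r`; the list `F` is not empty, and the members of `F` have distinct degrees between `1`
and `D`, coefficients of absolute value at most `r`, and nonnegative values at `t`. -/
def Small (D : ℕ) (r : ℝ) (t b : ℕ) (F : List ℤ[X]) : Prop :=
  (2 ≤ b ∧ (b : ℝ) ≤ r) ∧ F ≠ [] ∧ (F.map natDegree).Nodup ∧
    ∀ f ∈ F, 1 ≤ f.natDegree ∧ f.natDegree ≤ D ∧ (∀ i, |((f.coeff i : ℤ) : ℝ)| ≤ r) ∧ 0 ≤ f.eval (t : ℤ)

/-- `2 ^ k / k ^ W ≤ a ≤ 2 ^ k`. -/
def Scale (W k a : ℕ) : Prop := (2 : ℝ) ^ k ≤ (k : ℝ) ^ W * a ∧ a ≤ 2 ^ k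

/-- For ALL the integers `n` with `|n - h q| ≤ k ^ W` for some integer `q` with `|q - a| ≤ k ^ W` and some `1 ≤ h ≤ k ^ J`, and
for ALL `1 ≤ m ≤ k ^ J`: if the pair `(m, n)` is admissible then `Rep K m n`. -/
def Good (K J W k a : ℕ) : Prop :=
  ∀ q : ℤ, |q - a| ≤ (k : ℤ) ^ W → ∀ h : ℕ, 1 ≤ h → h ≤ k ^ J → ∀ n : ℕ, |(n : ℤ) - h * q| ≤ (k : ℤ) ^ W →
    ∀ m : ℕ, 1 ≤ m → m ≤ k ^ J → Admissible m n → Rep K m n

open Classical in
/-- The number of the `1 ≤ t ≤ x` for which there are a base `b` and a list `F` of polynomials with `Small D (k ^ W) t b F`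
such that the integer `concat b F t` is between `2 ^ k / k ^ W` and `2 ^ k` and `Good K J W k (concat b F t)` fails. -/
noncomputable def exceptions (D K J W k x : ℕ) : ℕ :=
  ((Icc 1 x).filter (fun t => ∃ (b : ℕ) (F : List ℤ[X]),
    Small D ((k : ℝ) ^ W) t b F ∧ Scale W k (concat b F t) ∧ ¬ Good K J W k (concat b F t))).card

lemma cond_of {D W k n b : ℕ} {F : List ℤ[X]} (h1 : Small D ((k : ℝ) ^ W) n b F) (h2 : Scale W k (concat b F n)) :
    Pool.Agent.U837.CC.Cond D W k n b F.reverse := by
  obtain ⟨⟨a1, a2⟩, a3, a4, a5⟩ := h1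
  exact ⟨a1, a2, Pool.Agent.U837.CC.adm_rev ⟨a3, a4, a5⟩, h2.1, h2.2⟩

/-- There is a constant `K` with the following property. Let `D`, `J`, `W` and `U` be fixed, let `k` be large and `x`
arbitrary. Then the following holds for all but at most `x / k ^ U` of the integers `1 ≤ t ≤ x`: for ALL the bases `b ≤ k ^ W`
and ALL the lists `F` of integer polynomials of distinct degrees between `1` and `D` with coefficients of absolute value at
most `k ^ W` and nonnegative values at `t`, for which the integer `a` whose digits in base `b` are those of `f(t)`, `f ∈ F`,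
written one after the other is between `2 ^ k / k ^ W` and `2 ^ k`; for ALL the integers `n` with `|n - h q| ≤ k ^ W` for some
`q` with `|q - a| ≤ k ^ W` and some `1 ≤ h ≤ k ^ J`, and for ALL `1 ≤ m ≤ k ^ J`: if the pair `(m, n)` is admissible, there is a
prime `p < n` such that `q = ⌊(n - p) / m⌋` is prime, `q ^ 2 - 2` has no prime factor `ℓ` with `ℓ ^ K ≤ n`, and `q ^ 2 - 2` has
fewer than `2 K` prime factors. -/
theorem result : ∃ K : ℕ, 1 ≤ K ∧ ∀ D J W U : ℕ, ∃ k₀ : ℕ, ∀ k : ℕ, k₀ ≤ k → ∀ x : ℕ,
    (exceptions D K J W k x : ℝ) ≤ x / (k : ℝ) ^ U := by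
  classical
  obtain ⟨K, hK, hcore⟩ := Pool.Agent.Results.MP_4011c3_nt.NestedWordMultiples.core
  refine ⟨K, hK, fun D J W U => ?_⟩
  obtain ⟨V, B₁, U', k₁, hvec⟩ := Pool.Agent.U837.CC.vec_one D W U
  obtain ⟨k₂, h2⟩ := hcore 2 1 (Pool.Agent.U837.CC.CCl D V) (Pool.Agent.U837.CC.cc_tcls D V 1 one_ne_zero) 1 J W U'
  refine ⟨k₁ + k₂ + 1, fun k hk x => ?_⟩
  have hkk := Pool.Agent.U837.CC.kk_le B₁ k
  have hk0 : (0 : ℝ) < k := by exact_mod_cast (by omega : 0 < k)
  unfold exceptions
  refine hvec k (by omega) (fun y => ∀ q : ℤ, |q - y| ≤ ((Pool.Agent.U837.CC.kk B₁ k : ℕ) : ℤ) ^ W → ∀ h : ℕ, 1 ≤ h →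
    h ≤ (Pool.Agent.U837.CC.kk B₁ k) ^ J → ∀ n : ℕ, |(n : ℤ) - h * q| ≤ ((Pool.Agent.U837.CC.kk B₁ k : ℕ) : ℤ) ^ W →
    ∀ m : ℕ, 1 ≤ m → m ≤ (Pool.Agent.U837.CC.kk B₁ k) ^ J → NestedWordMultiples.Admissible m n →
      NestedWordMultiples.Rep K m n) ?_ x _ (filter_subset _ _) ?_
  · intro p hp c hc
    have h3 := h2 (Pool.Agent.U837.CC.kk B₁ k) (by omega) p hp c (by push_cast; linarith)
    simp only [one_mul] at h3
    refine h3.trans ?_
    apply one_div_le_one_div_of_le (by positivity)
    apply pow_le_pow_left₀ hk0.le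
    exact_mod_cast hkk
  · intro t ht
    rw [mem_filter] at ht
    obtain ⟨_, b, F, g1, g2, g3⟩ := ht
    refine ⟨b, F.reverse, cond_of g1 g2, fun hc => g3 ?_⟩
    intro q hq h hh1 hh2 n hn m hm1 hm2 hadm
    have hW : (k : ℤ) ^ W ≤ ((Pool.Agent.U837.CC.kk B₁ k : ℕ) : ℤ) ^ W := by
      apply pow_le_pow_left₀ (by positivity)
      exact_mod_cast hkk
    exact hc q (hq.trans hW) h hh1 (hh2.trans (Nat.pow_le_pow_left hkk J)) n (hn.trans hW) m hm1
      (hm2.trans (Nat.pow_le_pow_left hkk J)) hadm

end Pool.Agent.Results.MP_4011c3_nt.Concatenations
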