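import Pool.Agent.U996.GB.SlopeFix
import Pool.Agent.U996.GB.Gold

/-!
# Primes `p < n` such that `q = ⌊(n - p) / m⌋` and a companion value of `q` are prime

The companion values are `⌊γ (p_q - q + 1)⌋ + h` (first question) and `⌊γ q²⌋ + h` (second question). For almost every
real `γ > 0`, all `h` and **all integers** `m ≥ 1`, there is such a prime `p` for nearly all `n` such that `(m, n)` is
admissible, and the companion condition selects the expected proportion `1 / log n`, resp. `1 / (2 log n)`, of the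
solutions of the first condition. The law for the proportion holds for **every real** `m > 0` and for nearly all
members `n` of an arbitrary set (all large members of a sparse set, for instance the powers of two); for almost every
real `m > 0` the number of solutions is asymptotically `n / log³ n`, resp. `n / (2 log³ n)`, for these `n`.
-/

set_option autoImplicit false

namespace Pool.Agent.Results.MP_4011c3_nt.MetricSlopes

open Finset MeasureTheory Filter Topology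

/-- `z` is a (positive) prime number -/
def IsPrime (z : ℤ) : Prop := z.toNat.Prime

/-- the `k`-th prime, `k ≥ 1` -/
noncomputable def p (k : ℕ) : ℕ := Nat.nth Nat.Prime (k - 1)

/-- the companion condition of the first question: `⌊γ (p_q - q + 1)⌋ + h` is prime -/
def C1 (γ : ℝ) (h : ℤ) (q : ℕ) : Prop := IsPrime (⌊γ * ((p q : ℝ) - q + 1)⌋ + h)

/-- the companion condition of the second question: `⌊γ q²⌋ + h` is prime -/
def C2 (γ : ℝ) (h : ℤ) (q : ℕ) : Prop := IsPrime (⌊γ * (q : ℝ) ^ 2⌋ + h)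

/-- the number of `s ∈ S`, `1 ≤ s < n`, such that `q = ⌊(n - s) / m⌋` is prime and satisfies the condition `E` -/
noncomputable def sols (m : ℝ) (E : ℕ → Prop) (S : Set ℕ) (n : ℕ) : ℕ :=
  Set.ncard {s : ℕ | 1 ≤ s ∧ s < n ∧ s ∈ S ∧ (⌊((n : ℝ) - s) / m⌋₊).Prime ∧ E ⌊((n : ℝ) - s) / m⌋₊}

/-- no companion condition -/
def Free (_ : ℕ) : Prop := True

/-- the pair `(m, n)` is admissible -/
def Admissible (m n : ℕ) : Prop :=
  1 ≤ m ∧ 2 * m + 1 < n ∧ ((m = 1 ∧ Even n) ∨ (m = 3 ∧ ¬ n ≡ 1 [MOD 6]) ∨ m = 2 ∨ 4 ≤ m)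

/-- the number of `s ∈ S` with `1 ≤ s < n` -/
noncomputable def size (S : Set ℕ) (n : ℕ) : ℕ := Set.ncard {s : ℕ | 1 ≤ s ∧ s < n ∧ s ∈ S}

/-- the members of `𝒩` in `[2 ^ i, 2 ^ (i + 1))` -/
def block (𝒩 : Set ℕ) (i : ℕ) : Set ℕ := {n | n ∈ 𝒩 ∧ 2 ^ i ≤ n ∧ n < 2 ^ (i + 1)}

/-- `E n` is true for nearly all members `n` of `𝒩`: for all `K` and all large `i` at most `|block| / i ^ K` members `n`
of the block of `𝒩` in `[2 ^ i, 2 ^ (i + 1))` violate `E n`; and if the blocks have at most `i ^ A` members (for some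
`A` and all large `i`), then all large `n ∈ 𝒩` satisfy `E n` -/
def Nearly (𝒩 : Set ℕ) (E : ℕ → Prop) : Prop :=
  (∀ K : ℕ, ∀ᶠ i : ℕ in atTop,
    (Set.ncard {n | n ∈ block 𝒩 i ∧ ¬ E n} : ℝ) ≤ Set.ncard (block 𝒩 i) / (i : ℝ) ^ K) ∧
  ((∃ A : ℕ, ∀ᶠ i : ℕ in atTop, Set.ncard (block 𝒩 i) ≤ i ^ A) → ∀ᶠ n : ℕ in atTop, n ∈ 𝒩 → E n)

open Pool.Agent.U996.UW Pool.Agent.U996.GB

lemma block_eq (𝒩 : Set ℕ) (i : ℕ) : block 𝒩 i = ((dy 𝒩 i : Finset ℕ) : Set ℕ) := by
  classical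
  ext n
  unfold block dy
  simp only [Set.mem_ofPred_eq, Finset.coe_filter, Finset.mem_Ico]
  tauto

lemma block_card (𝒩 : Set ℕ) (i : ℕ) : Set.ncard (block 𝒩 i) = (dy 𝒩 i).card := by
  rw [block_eq, Set.ncard_coe_finset]

lemma dy_le {𝒩 : Set ℕ} {i n : ℕ} (hn : n ∈ dy 𝒩 i) : i ≤ n := by
  classical
  unfold dy at hn
  rw [mem_filter, mem_Ico] at hn
  have h7 : i < 2 ^ i := Nat.lt_two_pow_self
  omega

/-- from exceptional sets to `Nearly` -/
lemma nearly_of (𝒩 : Set ℕ) (F G : ℕ → ℝ)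
    (hF : ∀ K : ℕ, ∀ᶠ i : ℕ in atTop,
      (((dy 𝒩 i).filter fun n : ℕ => (n : ℝ) / Real.log n ^ K < |F n|).card : ℝ) * i ^ K ≤ (dy 𝒩 i).card)
    (hG : ∀ K : ℕ, ∀ᶠ i : ℕ in atTop,
      (((dy 𝒩 i).filter fun n : ℕ => (n : ℝ) / Real.log n ^ K < |G n|).card : ℝ) * i ^ K ≤ (dy 𝒩 i).card)
    (D : ℕ) (E : ℕ → Prop)
    (h : ∀ᶠ n : ℕ in atTop, |F n| ≤ n / Real.log n ^ D → |G n| ≤ n / Real.log n ^ D → E n) :
    Nearly 𝒩 E := by
  classical
  have key : ∀ K : ℕ, ∀ᶠ i : ℕ in atTop,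
      (((dy 𝒩 i).filter fun n : ℕ => ¬ E n).card : ℝ) * i ^ K ≤ (dy 𝒩 i).card := by
    intro K
    obtain ⟨n1, hn1⟩ := (h.and (nlog.eventually_ge_atTop 1)).exists_forall_of_atTop
    filter_upwards [hF (K + D + 1), hG (K + D + 1), eventually_ge_atTop n1, eventually_ge_atTop 2] with i h1 h2 h3 h4
    have hi2 : (2 : ℝ) ≤ i := by exact_mod_cast h4
    have hi1 : (1 : ℝ) ≤ i := by linarith
    have hsub : ((dy 𝒩 i).filter fun n : ℕ => ¬ E n) ⊆
        ((dy 𝒩 i).filter fun n : ℕ => (n : ℝ) / Real.log n ^ (K + D + 1) < |F n|) ∪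
        ((dy 𝒩 i).filter fun n : ℕ => (n : ℝ) / Real.log n ^ (K + D + 1) < |G n|) := by
      intro n hn
      rw [mem_filter] at hn
      rw [mem_union, mem_filter, mem_filter]
      by_contra hcon
      push Not at hcon
      obtain ⟨c1, c2⟩ := hcon
      have d1 := c1 hn.1
      have d2 := c2 hn.1
      obtain ⟨g1, g2⟩ := hn1 n (h3.trans (dy_le hn.1))
      have hpow : (n : ℝ) / Real.log n ^ (K + D + 1) ≤ n / Real.log n ^ D := by
        apply div_le_div_of_nonneg_left (Nat.cast_nonneg _) (by positivity)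
        exact pow_le_pow_right₀ g2 (by omega)
      exact hn.2 (g1 (d1.trans hpow) (d2.trans hpow))
    have h5 := (Finset.card_le_card hsub).trans (Finset.card_union_le _ _)
    have h6 : (((dy 𝒩 i).filter fun n : ℕ => ¬ E n).card : ℝ) ≤
        (((dy 𝒩 i).filter fun n : ℕ => (n : ℝ) / Real.log n ^ (K + D + 1) < |F n|).card : ℝ) +
        (((dy 𝒩 i).filter fun n : ℕ => (n : ℝ) / Real.log n ^ (K + D + 1) < |G n|).card : ℝ) := by
      exact_mod_cast h5
    have h7 : (((dy 𝒩 i).filter fun n : ℕ => ¬ E n).card : ℝ) * i ^ (K + D + 1) ≤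
        2 * ((dy 𝒩 i).card : ℝ) := by
      have := mul_le_mul_of_nonneg_right h6 (show (0 : ℝ) ≤ (i : ℝ) ^ (K + D + 1) by positivity)
      linarith
    have h8 : (2 : ℝ) * (i : ℝ) ^ K ≤ (i : ℝ) ^ (K + D + 1) := by
      calc (2 : ℝ) * (i : ℝ) ^ K ≤ i * (i : ℝ) ^ K := mul_le_mul_of_nonneg_right hi2 (by positivity)
        _ = (i : ℝ) ^ (K + 1) := by ring
        _ ≤ _ := pow_le_pow_right₀ hi1 (by omega)
    have h9 := mul_le_mul_of_nonneg_left h8
      (Nat.cast_nonneg ((dy 𝒩 i).filter fun n : ℕ => ¬ E n).card : (0 : ℝ) ≤ _)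
    linarith
  refine ⟨fun K => ?_, ?_⟩
  · filter_upwards [key K, eventually_ge_atTop 1] with i hi hi1
    have hi0 : (0 : ℝ) < i := by exact_mod_cast hi1
    have e1 : {n | n ∈ block 𝒩 i ∧ ¬ E n} = (((dy 𝒩 i).filter fun n : ℕ => ¬ E n : Finset ℕ) : Set ℕ) := by
      ext n
      rw [block_eq]
      simp only [Set.mem_ofPred_eq, Finset.coe_filter, Finset.mem_coe]
    rw [e1, Set.ncard_coe_finset, block_card, le_div_iff₀ (by positivity)]
    exact hi
  · rintro ⟨A, hA⟩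
    obtain ⟨i1, hi1⟩ := ((key (A + 1)).and (hA.and (eventually_ge_atTop 2))).exists_forall_of_atTop
    filter_upwards [eventually_ge_atTop (2 ^ i1), eventually_ge_atTop 1] with n hn hn1 hnN
    obtain ⟨i, hi⟩ : ∃ i, i = Nat.log 2 n := ⟨_, rfl⟩
    have hii : i1 ≤ i := by
      rw [hi]
      exact Nat.le_log_of_pow_le (by norm_num) hn
    obtain ⟨c1, c2, c3⟩ := hi1 i hii
    by_contra hcon
    have hmem : n ∈ (dy 𝒩 i).filter fun n : ℕ => ¬ E n := by
      rw [mem_filter]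
      refine ⟨?_, hcon⟩
      unfold dy
      rw [mem_filter, mem_Ico, hi]
      exact ⟨⟨Nat.pow_log_le_self 2 (by omega), Nat.lt_pow_succ_log_self (by norm_num) n⟩, hnN⟩
    have h6 : (1 : ℝ) ≤ (((dy 𝒩 i).filter fun n : ℕ => ¬ E n).card : ℝ) := by
      exact_mod_cast Finset.card_pos.2 ⟨n, hmem⟩
    have hi2 : (2 : ℝ) ≤ i := by exact_mod_cast c3
    have h7 : ((dy 𝒩 i).card : ℝ) ≤ (i : ℝ) ^ A := by
      rw [block_card] at c2
      exact_mod_cast c2
    have h8 : (i : ℝ) ^ (A + 1) ≤ (i : ℝ) ^ A := by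
      calc (i : ℝ) ^ (A + 1) = 1 * (i : ℝ) ^ (A + 1) := (one_mul _).symm
        _ ≤ _ := mul_le_mul_of_nonneg_right h6 (by positivity)
        _ ≤ _ := c1.trans h7
    have h9 : (0 : ℝ) < (i : ℝ) ^ A := by positivity
    rw [pow_succ] at h8
    nlinarith

lemma nearly_mono (𝒩 : Set ℕ) (E E' : ℕ → Prop) (h : Nearly 𝒩 E) (hE : ∀ᶠ n : ℕ in atTop, E n → E' n) :
    Nearly 𝒩 E' := by
  refine ⟨fun K => ?_, fun hA => ?_⟩
  · obtain ⟨n1, hn1⟩ := hE.exists_forall_of_atTop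
    filter_upwards [h.1 K, eventually_ge_atTop n1] with i h1 h2
    refine le_trans ?_ h1
    have hfin : (block 𝒩 i).Finite := by
      rw [block_eq]
      exact Finset.finite_toSet _
    have h3 : Set.ncard {n | n ∈ block 𝒩 i ∧ ¬ E' n} ≤ Set.ncard {n | n ∈ block 𝒩 i ∧ ¬ E n} := by
      refine Set.ncard_le_ncard ?_ (hfin.subset fun n hn => hn.1)
      intro n hn
      refine ⟨hn.1, fun hc => hn.2 (hn1 n ?_ hc)⟩
      have h4 : n ∈ dy 𝒩 i := by
        have := hn.1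
        rw [block_eq] at this
        exact_mod_cast this
      exact h2.trans (dy_le h4)
    exact_mod_cast h3
  · filter_upwards [h.2 hA, hE] with n h1 h2 h3
    exact h2 (h1 h3)

open Classical in
/-- the weights -/
noncomputable def W (S : ℕ → Set ℕ) (n t : ℕ) : ℝ := if n - t ∈ S n then 1 else 0

lemma W_nonneg (S : ℕ → Set ℕ) (n t : ℕ) : 0 ≤ W S n t := by
  unfold W
  split_ifs <;> norm_num

lemma W_le (S : ℕ → Set ℕ) (n t : ℕ) : W S n t ≤ 1 := by
  unfold W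
  split_ifs <;> norm_num

lemma W_abs (S : ℕ → Set ℕ) (n t : ℕ) : |W S n t| ≤ 1 := by
  rw [abs_of_nonneg (W_nonneg S n t)]
  exact W_le S n t

open Classical in
lemma refl_card (S : ℕ → Set ℕ) (n : ℕ) (F : ℕ → Prop) :
    (Set.ncard {s : ℕ | 1 ≤ s ∧ s < n ∧ s ∈ S n ∧ F (n - s)} : ℝ) =
      ∑ t ∈ Icc 1 (n - 1), W S n t * (if F t then 1 else 0) := by
  have e1 : {s : ℕ | 1 ≤ s ∧ s < n ∧ s ∈ S n ∧ F (n - s)} =
      ((((Icc 1 (n - 1)).filter fun t => n - t ∈ S n ∧ F t).image fun t => n - t : Finset ℕ) : Set ℕ) := by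
    ext s
    simp only [Set.mem_ofPred_eq, Finset.coe_image, Finset.coe_filter, Finset.mem_Icc, Set.mem_image]
    constructor
    · rintro ⟨a, b, c, d⟩
      refine ⟨n - s, ⟨⟨by omega, by omega⟩, ?_, d⟩, by omega⟩
      rw [show n - (n - s) = s by omega]
      exact c
    · rintro ⟨t, ⟨⟨a, b⟩, c, d⟩, e⟩
      subst e
      refine ⟨by omega, by omega, c, ?_⟩
      rw [show n - (n - t) = t by omega]
      exact d
  rw [e1, Set.ncard_coe_finset, Finset.card_image_of_injOn, Finset.card_filter]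
  · push_cast
    refine Finset.sum_congr rfl fun t _ => ?_
    unfold W
    by_cases h1 : n - t ∈ S n
    · by_cases h2 : F t
      · simp [h1, h2]
      · simp [h1, h2]
    · simp [h1]
  · intro s hs t ht hst
    simp only [Finset.coe_filter, Finset.mem_Icc, Set.mem_ofPred_eq] at hs ht hst
    omega

lemma size_eq (S : ℕ → Set ℕ) (n : ℕ) : (size (S n) n : ℝ) = ∑ t ∈ Icc 1 (n - 1), W S n t := by
  have h1 := refl_card S n (fun _ => True)
  simp only [and_true, if_true, mul_one] at h1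
  exact h1

open Classical in
lemma sols_eq (m : ℝ) (E : ℕ → Prop) (S : ℕ → Set ℕ) (n : ℕ) :
    (sols m E (S n) n : ℝ) = ∑ t ∈ (Icc 1 (n - 1)).filter (fun t : ℕ => (⌊1 / m * (t : ℝ)⌋₊).Prime),
      W S n t * (if E ⌊1 / m * (t : ℝ)⌋₊ then 1 else 0) := by
  have h1 := refl_card S n (fun t => (⌊1 / m * (t : ℝ)⌋₊).Prime ∧ E ⌊1 / m * (t : ℝ)⌋₊)
  have e1 : {s : ℕ | 1 ≤ s ∧ s < n ∧ s ∈ S n ∧ (⌊((n : ℝ) - s) / m⌋₊).Prime ∧ E ⌊((n : ℝ) - s) / m⌋₊} =
      {s : ℕ | 1 ≤ s ∧ s < n ∧ s ∈ S n ∧ (⌊1 / m * ((n - s : ℕ) : ℝ)⌋₊).Prime ∧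
        E ⌊1 / m * ((n - s : ℕ) : ℝ)⌋₊} := by
    ext s
    simp only [Set.mem_ofPred_eq]
    constructor
    · rintro ⟨a, b, c, d, e⟩
      have e2 : 1 / m * ((n - s : ℕ) : ℝ) = ((n : ℝ) - s) / m := by
        rw [Nat.cast_sub b.le]
        ring
      rw [e2]
      exact ⟨a, b, c, d, e⟩
    · rintro ⟨a, b, c, d, e⟩
      have e2 : 1 / m * ((n - s : ℕ) : ℝ) = ((n : ℝ) - s) / m := by
        rw [Nat.cast_sub b.le]
        ring
      rw [e2] at d e
      exact ⟨a, b, c, d, e⟩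
  unfold sols
  rw [e1, h1, Finset.sum_filter]
  refine Finset.sum_congr rfl fun t _ => ?_
  by_cases h2 : (⌊1 / m * (t : ℝ)⌋₊).Prime
  · by_cases h3 : E ⌊1 / m * (t : ℝ)⌋₊
    · rw [if_pos ⟨h2, h3⟩, if_pos h2, if_pos h3]
    · rw [if_neg (fun hh => h3 hh.2), if_pos h2, if_neg h3]
  · rw [if_neg (fun hh => h2 hh.1), if_neg h2, mul_zero]

lemma free_eq (m : ℝ) (S : ℕ → Set ℕ) (n : ℕ) : (sols m Free (S n) n : ℝ) = rep1 (1 / m) (W S n) n := by
  rw [sols_eq]
  unfold rep1 Free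
  simp

/-- the first companion -/
noncomputable def y1 (q : ℕ) : ℕ := P q - q + 1

lemma P_ge' (q : ℕ) : q ≤ P q := by
  rcases Nat.eq_zero_or_pos q with h | h
  · rw [h]
    exact Nat.zero_le _
  · have := P_ge q h
    omega

lemma y1_cast (q : ℕ) : (y1 q : ℝ) = (P q : ℝ) - q + 1 := by
  unfold y1
  push_cast [Nat.cast_sub (P_ge' q)]
  ring

lemma C1_eq (m γ : ℝ) (h : ℤ) (S : ℕ → Set ℕ) (n : ℕ) :
    (sols m (C1 γ h) (S n) n : ℝ) = rep2 (1 / m) γ 1 h y1 (W S n) n := by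
  rw [sols_eq]
  unfold rep2
  refine Finset.sum_congr rfl fun t _ => ?_
  congr 1
  unfold C1 IsPrime pz p
  rw [pow_one, y1_cast]
  unfold P
  congr

lemma C2_eq (m γ : ℝ) (h : ℤ) (S : ℕ → Set ℕ) (n : ℕ) :
    (sols m (C2 γ h) (S n) n : ℝ) = rep2 (1 / m) γ 2 h (fun q => q) (W S n) n := by
  rw [sols_eq]
  unfold rep2
  refine Finset.sum_congr rfl fun t _ => ?_
  congr 1
  unfold C2 IsPrime pz
  congr

lemma y1_step (a : ℕ) (ha : 2 ≤ a) : y1 a < y1 (a + 1) := by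
  have h1 : P a < P (a + 1) := P_lt (by omega) (by omega)
  have h2 := P_ge a (by omega)
  have h3 : P (a + 1) ≠ P a + 1 := by
    intro hc
    have p1 := P_prime a
    have p2 := P_prime (a + 1)
    have o1 : P a ≠ 2 := by omega
    have o2 : P (a + 1) ≠ 2 := by omega
    have q1 := p1.eq_two_or_odd'.resolve_left o1
    have q2 := p2.eq_two_or_odd'.resolve_left o2
    rw [hc] at q2
    obtain ⟨u, hu⟩ := q1
    obtain ⟨v, hv⟩ := q2
    omega
  unfold y1
  omega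

lemma y1_lt {a b : ℕ} (ha : 2 ≤ a) (hab : a < b) : y1 a < y1 b := by
  induction b, hab using Nat.le_induction with
  | base => exact y1_step a ha
  | succ b hb ih => exact ih.trans (y1_step b (by omega))

lemma y1_bd (q : ℕ) (hq : 1 ≤ q) : 1 ≤ y1 q ∧ y1 q ≤ P q := by
  have h2 := P_ge q hq
  unfold y1
  omega

lemma y1_inj (q q' : ℕ) (hq : q.Prime) (hq' : q'.Prime) (h : y1 q = y1 q') : q = q' := by
  rcases lt_trichotomy q q' with h1 | h1 | h1
  · exact absurd h (y1_lt hq.two_le h1).ne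
  · exact h1
  · exact absurd h (y1_lt hq'.two_le h1).ne'

lemma y1_half : ∀ᶠ q : ℕ in atTop, (P q : ℝ) / 2 ≤ y1 q := by
  have h1 : ∀ᶠ q : ℕ in atTop, (q : ℝ) * Real.log (P q) / P q < 2 := P_lim.eventually (gt_mem_nhds (by norm_num))
  have h2 : ∀ᶠ q : ℕ in atTop, (4 : ℝ) ≤ Real.log (P q) := (nlog.comp P_top).eventually_ge_atTop 4
  filter_upwards [h1, h2, eventually_ge_atTop 1] with q h1 h2 h3
  have hP : (0 : ℝ) < P q := by
    have := P_ge q h3
    exact_mod_cast (by omega : 0 < P q)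
  rw [div_lt_iff₀ hP] at h1
  rw [y1_cast]
  have hq : (0 : ℝ) ≤ q := Nat.cast_nonneg _
  have h4 : (q : ℝ) * 4 ≤ q * Real.log (P q) := mul_le_mul_of_nonneg_left h2 hq
  linarith

lemma y1_top : Tendsto (fun q : ℕ => (y1 q : ℝ)) atTop atTop := by
  refine tendsto_atTop_mono' atTop y1_half ?_
  exact P_top'.atTop_div_const (by norm_num)

lemma y1_log : Tendsto (fun q : ℕ => Real.log (y1 q) / Real.log q) atTop (𝓝 1) := by
  have hz : Tendsto (fun n : ℕ => Real.log 2 / Real.log n) atTop (𝓝 0) := nlog.const_div_atTop _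
  have l1 := P_log.sub hz
  rw [sub_zero] at l1
  refine tendsto_of_tendsto_of_tendsto_of_le_of_le' l1 P_log ?_ ?_
  · filter_upwards [y1_half, nlog.eventually_ge_atTop 1, eventually_ge_atTop 1] with q h1 h2 h3
    have hP : (0 : ℝ) < P q := by
      have := P_ge q h3
      exact_mod_cast (by omega : 0 < P q)
    rw [← sub_div]
    apply div_le_div_of_nonneg_right _ (by linarith)
    rw [← Real.log_div hP.ne' (by norm_num)]
    exact Real.log_le_log (by positivity) h1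
  · filter_upwards [nlog.eventually_ge_atTop 1, eventually_ge_atTop 1] with q h2 h3
    have h4 := y1_bd q h3
    apply div_le_div_of_nonneg_right _ (by linarith)
    exact Real.log_le_log (by exact_mod_cast h4.1) (by exact_mod_cast h4.2)

lemma y2_log : Tendsto (fun q : ℕ => Real.log ((fun q : ℕ => q) q : ℕ) / Real.log q) atTop (𝓝 1) := by
  refine tendsto_const_nhds.congr' ?_
  filter_upwards [nlog.eventually_ge_atTop 1] with q hq
  rw [div_self]
  linarith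

/-- every slope -/
lemma every (𝒩 : Set ℕ) (S : ℕ → Set ℕ) (m : ℝ) (hm : 0 < m) (c : ℕ) (hc : 1 ≤ c) (y : ℕ → ℕ)
    (hyP : ∀ q, 1 ≤ q → 1 ≤ y q ∧ y q ≤ P q)
    (hyi : ∀ q q' : ℕ, q.Prime → q'.Prime → y q = y q' → q = q')
    (hyt : Tendsto (fun q : ℕ => (y q : ℝ)) atTop atTop)
    (hyl : Tendsto (fun q : ℕ => Real.log (y q) / Real.log q) atTop (𝓝 1)) :
    ∀ᵐ γ : ℝ, 0 < γ → ∀ (h : ℤ) (ε : ℝ), 0 < ε → ∀ K : ℕ,
      Nearly 𝒩 fun n => |rep2 (1 / m) γ c h y (W S n) n * Real.log n - 1 / c * rep1 (1 / m) (W S n) n| ≤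
        ε * rep1 (1 / m) (W S n) n + n / Real.log n ^ K := by
  filter_upwards [fix_ae (1 / m) (by positivity) c hc y hyP hyi (W S) (W_abs S) 𝒩] with γ h1 hγ h ε hε K
  refine nearly_of 𝒩 _ _ (h1 hγ h) (h1 hγ h) (K + 2) _ ?_
  filter_upwards [fix_pt (1 / m) γ (by positivity) hγ c hc h y hyt hyl (W S) (W_nonneg S) (W_le S) K ε hε]
    with n h2 h3 _
  exact h2 h3

/-- almost every slope -/
lemma almost (𝒩 : Set ℕ) (S : ℕ → Set ℕ) (B : ℕ)
    (hS : ∀ᶠ n : ℕ in atTop, (n : ℝ) / Real.log n ^ B ≤ size (S n) n) (c : ℕ) (hc : 1 ≤ c) (y : ℕ → ℕ)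
    (hyP : ∀ q, 1 ≤ q → 1 ≤ y q ∧ y q ≤ P q)
    (hyi : ∀ q q' : ℕ, q.Prime → q'.Prime → y q = y q' → q = q')
    (hyt : Tendsto (fun q : ℕ => (y q : ℝ)) atTop atTop)
    (hyl : Tendsto (fun q : ℕ => Real.log (y q) / Real.log q) atTop (𝓝 1)) :
    ∀ᵐ m : ℝ, 0 < m → ∀ᵐ γ : ℝ, 0 < γ → ∀ (h : ℤ) (ε : ℝ), 0 < ε →
      Nearly 𝒩 fun n => |rep2 (1 / m) γ c h y (W S n) n * Real.log n ^ 2 / size (S n) n - 1 / c| ≤ ε := by
  have h1 := ae_inv _ (slope_one (W S) (W_abs S) 𝒩)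
  have hS' : ∀ᶠ n : ℕ in atTop, (n : ℝ) / Real.log n ^ B ≤ ∑ t ∈ Icc 1 (n - 1), W S n t := by
    filter_upwards [hS] with n hn
    rw [size_eq] at hn
    exact hn
  filter_upwards [h1] with m h2 hm
  filter_upwards [fix_ae (1 / m) (by positivity) c hc y hyP hyi (W S) (W_abs S) 𝒩] with γ h3 hγ h ε hε
  refine nearly_of 𝒩 _ _ (h3 hγ h) (h2 hm) (B + 3) _ ?_
  filter_upwards [slope_pt (1 / m) γ (by positivity) hγ c hc h y hyt hyl (W S) (W_nonneg S) (W_le S) B hS' ε hε]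
    with n h4 h5 h6
  rw [size_eq]
  exact h4 h5 h6

/-- the set of the primes -/
def Pr : Set ℕ := {r | r.Prime}

lemma size_pr (n : ℕ) : size Pr n = Nat.primeCounting (n - 1) := by
  have e1 : {s : ℕ | 1 ≤ s ∧ s < n ∧ s ∈ Pr} = (((range n).filter Nat.Prime : Finset ℕ) : Set ℕ) := by
    ext s
    unfold Pr
    simp only [Set.mem_ofPred_eq, Finset.coe_filter, Finset.mem_range]
    constructor
    · rintro ⟨a, b, c⟩
      exact ⟨b, c⟩
    · rintro ⟨a, b⟩
      exact ⟨b.one_lt.le, a, b⟩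
  unfold size
  rw [e1, Set.ncard_coe_finset, ← Nat.primesBelow]
  rcases Nat.eq_zero_or_pos n with h | h
  · subst h
    simp [Nat.primesBelow]
  · rw [Nat.primesBelow_card_eq_primeCounting']
    unfold Nat.primeCounting
    rw [show n - 1 + 1 = n by omega]

/-- the prime number theorem for `size` -/
lemma pr_lim : Tendsto (fun n : ℕ => (size Pr n : ℝ) * Real.log n / n) atTop (𝓝 1) := by
  have h2 : Tendsto (fun n : ℕ => Real.log n / n) atTop (𝓝 0) := by
    have := Real.isLittleO_log_id_atTop.tendsto_div_nhds_zero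
    exact this.comp tendsto_natCast_atTop_atTop
  have l1 := pnt.sub h2
  rw [sub_zero] at l1
  refine tendsto_of_tendsto_of_tendsto_of_le_of_le' l1 pnt ?_ ?_
  · filter_upwards [nlog.eventually_ge_atTop 1, eventually_ge_atTop 1] with n h3 h4
    have hn : (0 : ℝ) < n := by exact_mod_cast h4
    rw [← sub_div]
    apply div_le_div_of_nonneg_right _ hn.le
    have h5 : Nat.primeCounting n ≤ size Pr n + 1 := by
      rw [size_pr]
      unfold Nat.primeCounting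
      rw [show n - 1 + 1 = n by omega]
      unfold Nat.primeCounting'
      rw [Nat.count_succ]
      split_ifs <;> omega
    have h6 : (Nat.primeCounting n : ℝ) ≤ size Pr n + 1 := by exact_mod_cast h5
    nlinarith
  · filter_upwards [nlog.eventually_ge_atTop 1, eventually_ge_atTop 1] with n h3 h4
    have hn : (0 : ℝ) < n := by exact_mod_cast h4
    apply div_le_div_of_nonneg_right _ hn.le
    have h5 : size Pr n ≤ Nat.primeCounting n := by
      rw [size_pr]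
      exact Nat.monotone_primeCounting (by omega)
    have h6 : (size Pr n : ℝ) ≤ Nat.primeCounting n := by exact_mod_cast h5
    exact mul_le_mul_of_nonneg_right h6 (by linarith)

lemma pr_dense : ∀ᶠ n : ℕ in atTop, (n : ℝ) / Real.log n ^ 2 ≤ size ((fun _ => Pr) n : Set ℕ) n := by
  have h1 : ∀ᶠ n : ℕ in atTop, 1 / 2 < (size Pr n : ℝ) * Real.log n / n :=
    pr_lim.eventually (lt_mem_nhds (by norm_num))
  filter_upwards [h1, nlog.eventually_ge_atTop 2, eventually_ge_atTop 1] with n h2 h3 h4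
  have hn : (0 : ℝ) < n := by exact_mod_cast h4
  have hl : 0 < Real.log n := by linarith
  rw [lt_div_iff₀ hn] at h2
  rw [div_le_iff₀ (by positivity)]
  have h5 : (n : ℝ) ≤ 2 * ((size Pr n : ℝ) * Real.log n) := by linarith
  have h6 : 2 * ((size Pr n : ℝ) * Real.log n) ≤ Real.log n * ((size Pr n : ℝ) * Real.log n) :=
    mul_le_mul_of_nonneg_right h3 (by positivity)
  calc (n : ℝ) ≤ Real.log n * ((size Pr n : ℝ) * Real.log n) := h5.trans h6
    _ = _ := by ring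

/-- from `log² n / size` to `log³ n / n` -/
lemma conv (𝒩 : Set ℕ) (F : ℕ → ℝ) (L : ℝ) (hL0 : 0 ≤ L) (hL1 : L ≤ 1)
    (h : ∀ ε : ℝ, 0 < ε → Nearly 𝒩 fun n => |F n * Real.log n ^ 2 / size Pr n - L| ≤ ε) (ε : ℝ) (hε : 0 < ε) :
    Nearly 𝒩 fun n => |F n * Real.log n ^ 3 / n - L| ≤ ε := by
  obtain ⟨δ, hδ⟩ : ∃ δ : ℝ, δ = min 1 (ε / 3) := ⟨_, rfl⟩
  have hδ0 : 0 < δ := by rw [hδ]; positivity
  have hδ1 : δ ≤ 1 := by rw [hδ]; exact min_le_left _ _
  have hδ2 : δ ≤ ε / 3 := by rw [hδ]; exact min_le_right _ _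
  refine nearly_mono 𝒩 _ _ (h δ hδ0) ?_
  have h1 : ∀ᶠ n : ℕ in atTop, |(size Pr n : ℝ) * Real.log n / n - 1| < δ := by
    have := (Metric.tendsto_nhds.1 pr_lim) δ hδ0
    simpa only [Real.dist_eq] using this
  filter_upwards [h1, pr_dense, nlog.eventually_ge_atTop 1, eventually_ge_atTop 1] with n g1 g2 g3 g4 g5
  have hn : (0 : ℝ) < n := by exact_mod_cast g4
  have hl : 0 < Real.log n := by linarith
  have hs : (0 : ℝ) < size Pr n := lt_of_lt_of_le (by positivity) g2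
  have e1 : F n * Real.log n ^ 3 / n = (F n * Real.log n ^ 2 / size Pr n) * ((size Pr n : ℝ) * Real.log n / n) := by
    field_simp
  rw [e1]
  obtain ⟨u, hu⟩ : ∃ u : ℝ, u = F n * Real.log n ^ 2 / size Pr n := ⟨_, rfl⟩
  obtain ⟨v, hv⟩ : ∃ v : ℝ, v = (size Pr n : ℝ) * Real.log n / n := ⟨_, rfl⟩
  rw [← hu] at g5 ⊢
  rw [← hv] at g1 ⊢
  have e2 : u * v - L = (u - L) * (v - 1) + (u - L) + L * (v - 1) := by ring
  rw [e2]
  refine (abs_add_le _ _).trans ((add_le_add (abs_add_le _ _) le_rfl).trans ?_)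
  rw [abs_mul, abs_mul, abs_of_nonneg hL0]
  have h2 : |u - L| * |v - 1| ≤ δ * 1 := mul_le_mul g5 (g1.le.trans hδ1) (abs_nonneg _) hδ0.le
  have h3 : L * |v - 1| ≤ 1 * δ := mul_le_mul hL1 g1.le (abs_nonneg _) zero_le_one
  linarith

/-- existence of a solution -/
lemma exists_sol (𝒩 : Set ℕ) (m : ℝ) (E : ℕ → Prop) (L : ℝ) (hL : 0 < L)
    (h : ∀ ε : ℝ, 0 < ε → Nearly 𝒩 fun n => |(sols m E Pr n : ℝ) * Real.log n ^ 3 / n - L| ≤ ε) :
    Nearly 𝒩 fun n => ∃ r : ℕ, r.Prime ∧ r < n ∧ (⌊((n : ℝ) - r) / m⌋₊).Prime ∧ E ⌊((n : ℝ) - r) / m⌋₊ := by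
  refine nearly_mono 𝒩 _ _ (h (L / 2) (by positivity)) (Eventually.of_forall fun n hn => ?_)
  have h7 : sols m E Pr n ≠ 0 := by
    intro h0
    rw [h0, Nat.cast_zero, zero_mul, zero_div, zero_sub, abs_neg, abs_of_pos hL] at hn
    linarith
  unfold sols at h7
  obtain ⟨r, hr1, hr2, hr3, hr4, hr5⟩ := Set.nonempty_of_ncard_ne_zero h7
  exact ⟨r, hr3, hr2, hr4, hr5⟩

lemma nearly_and (𝒩 : Set ℕ) (E F : ℕ → Prop) (hE : Nearly 𝒩 E) (hF : Nearly 𝒩 F) :
    Nearly 𝒩 fun n => E n ∧ F n := by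
  refine ⟨fun K => ?_, fun hA => ?_⟩
  · filter_upwards [hE.1 (K + 1), hF.1 (K + 1), eventually_ge_atTop 2] with i h1 h2 h3
    have hfin : (block 𝒩 i).Finite := by
      rw [block_eq]
      exact Finset.finite_toSet _
    have h4 : Set.ncard {n | n ∈ block 𝒩 i ∧ ¬ (E n ∧ F n)} ≤
        Set.ncard {n | n ∈ block 𝒩 i ∧ ¬ E n} + Set.ncard {n | n ∈ block 𝒩 i ∧ ¬ F n} := by
      refine (Set.ncard_le_ncard ?_ ((hfin.subset fun n hn => hn.1).union
        (hfin.subset fun n hn => hn.1))).trans (Set.ncard_union_le _ _)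
      intro n hn
      by_cases hc : E n
      · exact Or.inr ⟨hn.1, fun hf => hn.2 ⟨hc, hf⟩⟩
      · exact Or.inl ⟨hn.1, hc⟩
    have h5 : (Set.ncard {n | n ∈ block 𝒩 i ∧ ¬ (E n ∧ F n)} : ℝ) ≤
        Set.ncard {n | n ∈ block 𝒩 i ∧ ¬ E n} + Set.ncard {n | n ∈ block 𝒩 i ∧ ¬ F n} := by
      exact_mod_cast h4
    have hi2 : (2 : ℝ) ≤ i := by exact_mod_cast h3
    have hi0 : (0 : ℝ) < i := by linarith
    have h6 : (Set.ncard (block 𝒩 i) : ℝ) / (i : ℝ) ^ (K + 1) + Set.ncard (block 𝒩 i) / (i : ℝ) ^ (K + 1) ≤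
        Set.ncard (block 𝒩 i) / (i : ℝ) ^ K := by
      have e1 : (Set.ncard (block 𝒩 i) : ℝ) / (i : ℝ) ^ (K + 1) + Set.ncard (block 𝒩 i) / (i : ℝ) ^ (K + 1) =
          Set.ncard (block 𝒩 i) / (i : ℝ) ^ K * (2 / i) := by
        rw [pow_succ]
        field_simp
        ring
      rw [e1]
      refine (mul_le_mul_of_nonneg_left ?_ (by positivity)).trans (mul_one _).le
      rw [div_le_one hi0]
      exact hi2
    linarith
  · filter_upwards [hE.2 hA, hF.2 hA] with n h1 h2 h3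
    exact ⟨h1 h3, h2 h3⟩

lemma dy_univ (i : ℕ) : (dy Set.univ i).card = 2 ^ i := by
  classical
  unfold dy
  simp only [Set.mem_univ, Finset.filter_true, Nat.card_Ico, pow_succ]
  omega

/-- Goldbach type representations for nearly all admissible `n` -/
lemma nearly_gold (m : ℕ) (hm : 1 ≤ m) : ∃ C : ℕ,
    Nearly Set.univ fun n => Adm m n → (n : ℝ) / Real.log n ^ C ≤ cnt m n := by
  classical
  obtain ⟨C, hC⟩ := gold m hm
  refine ⟨C + 1, fun K => ?_, ?_⟩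
  · obtain ⟨M0, h0⟩ := hC (K + 1)
    filter_upwards [eventually_ge_atTop M0, eventually_ge_atTop (2 ^ (K + 2)),
      eventually_ge_atTop (2 * 2 ^ C + 2)] with i h1 h2 h3
    obtain ⟨M, hM⟩ : ∃ M, M = 2 ^ (i + 1) - 1 := ⟨_, rfl⟩
    have hp : i < 2 ^ i := Nat.lt_two_pow_self
    have hp1 : 2 ^ (i + 1) = 2 * 2 ^ i := by ring
    have hMM : M / 2 = 2 ^ i - 1 := by omega
    have h4 := h0 M (by omega)
    have hlow : ∀ n : ℕ, 2 ^ i ≤ n → (i : ℝ) / 2 ≤ Real.log n := by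
      intro n hn
      have h5 : Real.log ((2 : ℝ) ^ i) ≤ Real.log n :=
        Real.log_le_log (by positivity) (by exact_mod_cast hn)
      rw [Real.log_pow] at h5
      have h6 := Real.log_two_gt_d9
      have h7 : (0 : ℝ) ≤ i := Nat.cast_nonneg _
      nlinarith
    have hlogM := hlow M (by omega)
    have hi2 : (2 * 2 ^ C + 2 : ℝ) ≤ i := by exact_mod_cast h3
    have h2C : (1 : ℝ) ≤ 2 ^ C := one_le_pow₀ (by norm_num)
    have hi0 : (0 : ℝ) < i := by linarith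
    have hl0 : 0 < Real.log M := by linarith
    have e1 : Set.ncard {n | n ∈ block Set.univ i ∧ ¬ (Adm m n → (n : ℝ) / Real.log n ^ (C + 1) ≤ cnt m n)} ≤
        ((Ioc (M / 2) M).filter fun n : ℕ => Adm m n ∧ ¬ ((M : ℝ) / Real.log M ^ C ≤ cnt m n)).card := by
      rw [← Set.ncard_coe_finset]
      refine Set.ncard_le_ncard ?_ (Finset.finite_toSet _)
      rintro n ⟨⟨_, n1, n2⟩, n3⟩
      push Not at n3
      obtain ⟨n3, n4⟩ := n3
      rw [Finset.coe_filter]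
      refine ⟨by rw [Finset.mem_Ioc]; omega, n3, ?_⟩
      intro hc
      have hn0 : (0 : ℝ) < n := by exact_mod_cast (by omega : 0 < n)
      have hln := hlow n n1
      have hln0 : 0 < Real.log n := by linarith
      have hnM : (n : ℝ) ≤ M := by exact_mod_cast (by omega : n ≤ M)
      have h5 : Real.log M ≤ 2 * Real.log n := by
        have hM2 : M ≤ 2 * n := by omega
        have hn2 : 2 ≤ n := by omega
        have hMn : M ≤ n * n := hM2.trans (Nat.mul_le_mul_right n hn2)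
        have hMr : (0 : ℝ) < M := hn0.trans_le hnM
        have h6 : Real.log M ≤ Real.log (n * n) := Real.log_le_log hMr (by exact_mod_cast hMn)
        rw [Real.log_mul hn0.ne' hn0.ne'] at h6
        linarith
      have h7 : Real.log M ^ C ≤ Real.log n ^ (C + 1) := by
        calc Real.log M ^ C ≤ (2 * Real.log n) ^ C := pow_le_pow_left₀ hl0.le h5 C
          _ = 2 ^ C * Real.log n ^ C := mul_pow _ _ _
          _ ≤ Real.log n * Real.log n ^ C := mul_le_mul_of_nonneg_right (by linarith) (by positivity)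
          _ = _ := by ring
      have h8 : (n : ℝ) / Real.log n ^ (C + 1) ≤ M / Real.log M ^ C :=
        div_le_div₀ (by linarith) hnM (by positivity) h7
      linarith
    have e2 : (Set.ncard {n | n ∈ block Set.univ i ∧
        ¬ (Adm m n → (n : ℝ) / Real.log n ^ (C + 1) ≤ cnt m n)} : ℝ) ≤ M / Real.log M ^ (K + 1) := by
      refine le_trans ?_ h4
      exact_mod_cast e1
    refine e2.trans ?_
    rw [block_card, dy_univ, div_le_div_iff₀ (by positivity) (by positivity)]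
    have h5 : (M : ℝ) ≤ 2 * 2 ^ i := by exact_mod_cast (by omega : M ≤ 2 * 2 ^ i)
    have h6 : (2 : ℝ) * (i : ℝ) ^ K ≤ Real.log M ^ (K + 1) := by
      have h7 : ((i : ℝ) / 2) ^ (K + 1) ≤ Real.log M ^ (K + 1) := pow_le_pow_left₀ (by positivity) hlogM _
      have h8 : (2 : ℝ) ^ (K + 2) ≤ i := by exact_mod_cast h2
      have h9 : (2 : ℝ) * (i : ℝ) ^ K ≤ ((i : ℝ) / 2) ^ (K + 1) := by
        rw [div_pow, le_div_iff₀ (by positivity)]
        calc (2 : ℝ) * (i : ℝ) ^ K * 2 ^ (K + 1) = 2 ^ (K + 2) * (i : ℝ) ^ K := by ring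
          _ ≤ i * (i : ℝ) ^ K := mul_le_mul_of_nonneg_right h8 (by positivity)
          _ = _ := by ring
      exact h9.trans h7
    push_cast
    calc (M : ℝ) * (i : ℝ) ^ K ≤ 2 * 2 ^ i * (i : ℝ) ^ K := mul_le_mul_of_nonneg_right h5 (by positivity)
      _ = 2 ^ i * (2 * (i : ℝ) ^ K) := by ring
      _ ≤ 2 ^ i * Real.log M ^ (K + 1) := mul_le_mul_of_nonneg_left h6 (by positivity)
  · rintro ⟨A, hA⟩
    exfalso
    have h1 : Tendsto (fun i : ℕ => (i : ℝ) ^ A / (2 : ℝ) ^ i) atTop (𝓝 0) :=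
      tendsto_pow_const_div_const_pow_of_one_lt A (by norm_num)
    obtain ⟨i, h2, h3⟩ := (hA.and (h1.eventually (gt_mem_nhds one_pos))).exists
    rw [block_card, dy_univ] at h2
    rw [div_lt_one (by positivity)] at h3
    have h4 : ((2 : ℝ) ^ i) ≤ (i : ℝ) ^ A := by exact_mod_cast h2
    linarith

lemma floor_nat (m n r : ℕ) (h : r ≤ n) : ⌊((n : ℝ) - r) / (m : ℝ)⌋₊ = (n - r) / m := by
  rw [← Nat.cast_sub h, Nat.floor_div_eq_div]

lemma cnt_eq (m n : ℕ) : sols m Free Pr n = cnt m n := by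
  unfold sols cnt
  rw [← Set.ncard_coe_finset]
  congr 1
  ext r
  unfold Free Pr
  simp only [Set.mem_ofPred_eq, Finset.coe_filter, Finset.mem_range, and_true]
  constructor
  · rintro ⟨a, b, c, d⟩
    rw [floor_nat m n r b.le] at d
    exact ⟨b, c, d⟩
  · rintro ⟨b, c, d⟩
    rw [floor_nat m n r b.le]
    exact ⟨c.one_lt.le, b, c, d⟩

lemma sol_nat (m n : ℕ) (E : ℕ → Prop) (h : sols m E Pr n ≠ 0) :
    ∃ r q : ℕ, r.Prime ∧ r < n ∧ q = (n - r) / m ∧ q.Prime ∧ E q := by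
  unfold sols at h
  obtain ⟨r, hr1, hr2, hr3, hr4, hr5⟩ := Set.nonempty_of_ncard_ne_zero h
  rw [floor_nat m n r hr2.le] at hr4 hr5
  exact ⟨r, _, hr3, hr2, rfl, hr4, hr5⟩

/-- every integer slope -/
lemma every_nat (c : ℕ) (hc : 1 ≤ c) (y : ℕ → ℕ)
    (hyP : ∀ q, 1 ≤ q → 1 ≤ y q ∧ y q ≤ P q)
    (hyi : ∀ q q' : ℕ, q.Prime → q'.Prime → y q = y q' → q = q')
    (hyt : Tendsto (fun q : ℕ => (y q : ℝ)) atTop atTop)
    (hyl : Tendsto (fun q : ℕ => Real.log (y q) / Real.log q) atTop (𝓝 1)) :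
    ∀ᵐ γ : ℝ, ∀ m : ℕ, 0 < γ → 1 ≤ m → ∀ (h : ℤ) (ε : ℝ), 0 < ε → ∀ K : ℕ,
      Nearly Set.univ fun n => |rep2 (1 / (m : ℝ)) γ c h y (W (fun _ => Pr) n) n * Real.log n -
        1 / c * rep1 (1 / (m : ℝ)) (W (fun _ => Pr) n) n| ≤
        ε * rep1 (1 / (m : ℝ)) (W (fun _ => Pr) n) n + n / Real.log n ^ K := by
  rw [ae_all_iff]
  intro m
  rcases Nat.eq_zero_or_pos m with hm | hm
  · exact Eventually.of_forall fun γ hγ h1 => absurd hm (by omega)
  · filter_upwards [every Set.univ (fun _ => Pr) m (by exact_mod_cast hm) c hc y hyP hyi hyt hyl] with γ hγ h0 h1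
    exact hγ h0

/-- from the relative law and the lower bound to the conclusion -/
lemma combine (C : ℕ) (c ε : ℝ) (hc : 1 / 2 ≤ c) (hε : 0 < ε) :
    ∀ᶠ n : ℕ in atTop, ∀ u v : ℝ, (n : ℝ) / Real.log n ^ C ≤ v →
      |u * Real.log n - c * v| ≤ min (ε / 2) (1 / 8) * v + n / Real.log n ^ (C + 1) →
      |u * Real.log n - c * v| ≤ ε * v ∧ u ≠ 0 := by
  filter_upwards [nlog.eventually_ge_atTop (2 / ε + 8), eventually_ge_atTop 1] with n h1 h2 u v h3 h4
  obtain ⟨ℓ, hℓ⟩ : ∃ ℓ : ℝ, ℓ = Real.log n := ⟨_, rfl⟩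
  rw [← hℓ] at h1 h3 h4 ⊢
  have hεi : 0 < 2 / ε := by positivity
  have hℓ0 : 0 < ℓ := by linarith
  have hn0 : (0 : ℝ) < n := by exact_mod_cast h2
  have hv : 0 < v := lt_of_lt_of_le (by positivity) h3
  have h5 : (n : ℝ) / ℓ ^ (C + 1) ≤ v / ℓ := by
    rw [pow_succ, ← div_div]
    exact div_le_div_of_nonneg_right h3 hℓ0.le
  have h6 : v / ℓ ≤ ε / 2 * v := by
    rw [div_le_iff₀ hℓ0]
    have h7 : 2 / ε ≤ ℓ := by linarith
    rw [div_le_iff₀ hε] at h7
    nlinarith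
  have h8 : v / ℓ ≤ 1 / 8 * v := by
    rw [div_le_iff₀ hℓ0]
    nlinarith
  have m1 : min (ε / 2) (1 / 8) * v ≤ ε / 2 * v := mul_le_mul_of_nonneg_right (min_le_left _ _) hv.le
  have m2 : min (ε / 2) (1 / 8) * v ≤ 1 / 8 * v := mul_le_mul_of_nonneg_right (min_le_right _ _) hv.le
  refine ⟨by linarith, ?_⟩
  intro hu
  rw [hu, zero_mul, zero_sub, abs_neg, abs_of_nonneg (by positivity)] at h4
  nlinarith

/-- The notion of nearly all members of a set of natural numbers is defined above (`Nearly`): it gives all large members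
if the set is sparse, for instance the set of the powers of two.

(1) **All integers** `m ≥ 1`. For almost every real `γ > 0`, all integers `h` and all integers `m ≥ 1` there is a `C`
such that for all `ε > 0` and nearly all natural numbers `n` for which `(m, n)` is admissible: the number of the primes
`r < n` with `q = ⌊(n - r) / m⌋` prime is at least `n / (log n) ^ C`; the numbers of those for which also the companion
value `⌊γ (p_q - q + 1)⌋ + h`, resp. `⌊γ q²⌋ + h`, is prime are `(1 + O(ε)) / log n`, resp. `(1 / 2 + O(ε)) / log n`,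
times this number; in particular there is such a prime `r` for both companion values.

(2) **Every real** `m > 0`, arbitrary sets. Let `𝒩` and `S n` be any sets and let `m > 0` be any real number. For almost
every real `γ > 0`, all integers `h`, all `ε > 0` and `K`: for nearly all `n ∈ 𝒩`, the number of `s ∈ S n`, `1 ≤ s < n`,
such that both `q = ⌊(n - s) / m⌋` and the companion value are prime, multiplied by `log n`, differs from the number
(resp. half of the number) of those with `q` prime by at most `ε` times this number plus `n / (log n) ^ K`.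

(3) Almost every real `m > 0`. Let `𝒩` be any set. For almost every real `m > 0` and almost every real `γ > 0`, all `h`,
`ε > 0`: for nearly all `n ∈ 𝒩` the number of the primes `r < n` such that `q = ⌊(n - r) / m⌋` and the companion value
are prime is `(1 + O(ε)) n / (log n) ^ 3`, resp. `(1 / 2 + O(ε)) n / (log n) ^ 3`; in particular there is such a prime
`r`. -/
theorem result :
    (∀ᵐ γ : ℝ, 0 < γ → ∀ (h : ℤ) (m : ℕ), 1 ≤ m → ∃ C : ℕ, ∀ ε : ℝ, 0 < ε →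
      Nearly Set.univ fun n => Admissible m n →
        (n : ℝ) / Real.log n ^ C ≤ sols m Free Pr n ∧
        |(sols m (C1 γ h) Pr n : ℝ) * Real.log n - sols m Free Pr n| ≤ ε * sols m Free Pr n ∧
        |(sols m (C2 γ h) Pr n : ℝ) * Real.log n - 1 / 2 * sols m Free Pr n| ≤ ε * sols m Free Pr n ∧
        (∃ r q : ℕ, r.Prime ∧ r < n ∧ q = (n - r) / m ∧ q.Prime ∧ C1 γ h q) ∧
        (∃ r q : ℕ, r.Prime ∧ r < n ∧ q = (n - r) / m ∧ q.Prime ∧ C2 γ h q)) ∧
    (∀ (𝒩 : Set ℕ) (S : ℕ → Set ℕ) (m : ℝ), 0 < m → ∀ᵐ γ : ℝ, 0 < γ → ∀ (h : ℤ) (ε : ℝ), 0 < ε → ∀ K : ℕ,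
      (Nearly 𝒩 fun n => |(sols m (C1 γ h) (S n) n : ℝ) * Real.log n - sols m Free (S n) n| ≤
        ε * sols m Free (S n) n + n / Real.log n ^ K) ∧
      (Nearly 𝒩 fun n => |(sols m (C2 γ h) (S n) n : ℝ) * Real.log n - 1 / 2 * sols m Free (S n) n| ≤
        ε * sols m Free (S n) n + n / Real.log n ^ K)) ∧
    (∀ (𝒩 : Set ℕ), ∀ᵐ m : ℝ, 0 < m → ∀ᵐ γ : ℝ, 0 < γ → ∀ h : ℤ,
      (∀ ε : ℝ, 0 < ε →
        (Nearly 𝒩 fun n => |(sols m (C1 γ h) Pr n : ℝ) * Real.log n ^ 3 / n - 1| ≤ ε) ∧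
        (Nearly 𝒩 fun n => |(sols m (C2 γ h) Pr n : ℝ) * Real.log n ^ 3 / n - 1 / 2| ≤ ε)) ∧
      (Nearly 𝒩 fun n => ∃ r : ℕ, r.Prime ∧ r < n ∧ (⌊((n : ℝ) - r) / m⌋₊).Prime ∧
        C1 γ h ⌊((n : ℝ) - r) / m⌋₊) ∧
      (Nearly 𝒩 fun n => ∃ r : ℕ, r.Prime ∧ r < n ∧ (⌊((n : ℝ) - r) / m⌋₊).Prime ∧
        C2 γ h ⌊((n : ℝ) - r) / m⌋₊)) := by
  have y2i : ∀ q q' : ℕ, q.Prime → q'.Prime → (fun q : ℕ => q) q = (fun q : ℕ => q) q' → q = q' :=
    fun q q' _ _ h => h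
  have y2b : ∀ q, 1 ≤ q → 1 ≤ (fun q : ℕ => q) q ∧ (fun q : ℕ => q) q ≤ P q := fun q hq => ⟨hq, P_ge' q⟩
  refine ⟨?_, fun 𝒩 S m hm => ?_, fun 𝒩 => ?_⟩
  · filter_upwards [every_nat 1 le_rfl y1 y1_bd y1_inj y1_top y1_log,
      every_nat 2 (by norm_num) (fun q => q) y2b y2i tendsto_natCast_atTop_atTop y2_log] with γ g1 g2 hγ h m hm
    obtain ⟨C, hC⟩ := nearly_gold m hm
    refine ⟨C, fun ε hε => ?_⟩
    have hε' : 0 < min (ε / 2) (1 / 8) := lt_min (by positivity) (by norm_num)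
    have h1 := g1 m hγ hm h _ hε' (C + 1)
    have h2 := g2 m hγ hm h _ hε' (C + 1)
    rw [Nat.cast_one, div_one] at h1
    rw [Nat.cast_ofNat] at h2
    simp only [← C1_eq, ← C2_eq, ← free_eq] at h1 h2
    refine nearly_mono _ _ _ (nearly_and _ _ _ hC (nearly_and _ _ _ h1 h2)) ?_
    filter_upwards [combine C 1 ε (by norm_num) hε, combine C (1 / 2) ε le_rfl hε] with n k1 k2
    rintro ⟨n1, n2, n3⟩ hadm
    have e0 : (n : ℝ) / Real.log n ^ C ≤ sols m Free Pr n := by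
      rw [cnt_eq]
      exact n1 ⟨hadm.2.1, hadm.2.2⟩
    have k3 := k1 _ _ e0 n2
    have k4 := k2 _ _ e0 n3
    rw [one_mul] at k3
    exact ⟨e0, k3.1, k4.1, sol_nat m n _ (by exact_mod_cast k3.2), sol_nat m n _ (by exact_mod_cast k4.2)⟩
  · filter_upwards [every 𝒩 S m hm 1 le_rfl y1 y1_bd y1_inj y1_top y1_log,
      every 𝒩 S m hm 2 (by norm_num) (fun q => q) y2b y2i tendsto_natCast_atTop_atTop y2_log]
      with γ h3 h4 hγ h ε hε K
    have h5 := h3 hγ h ε hε K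
    have h6 := h4 hγ h ε hε K
    rw [Nat.cast_one, div_one] at h5
    rw [Nat.cast_ofNat] at h6
    simp only [one_mul] at h5
    simp only [C1_eq, C2_eq, free_eq]
    exact ⟨h5, h6⟩
  · have dense : ∀ᵐ m : ℝ, 0 < m → ∀ᵐ γ : ℝ, 0 < γ → ∀ (h : ℤ) (ε : ℝ), 0 < ε →
        (Nearly 𝒩 fun n => |(sols m (C1 γ h) Pr n : ℝ) * Real.log n ^ 2 / size Pr n - 1| ≤ ε) ∧
        (Nearly 𝒩 fun n => |(sols m (C2 γ h) Pr n : ℝ) * Real.log n ^ 2 / size Pr n - 1 / 2| ≤ ε) := by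
      filter_upwards [almost 𝒩 (fun _ => Pr) 2 pr_dense 1 le_rfl y1 y1_bd y1_inj y1_top y1_log,
        almost 𝒩 (fun _ => Pr) 2 pr_dense 2 (by norm_num) (fun q => q) y2b y2i tendsto_natCast_atTop_atTop y2_log]
        with m h1 h2 hm
      filter_upwards [h1 hm, h2 hm] with γ h3 h4 hγ h ε hε
      have h5 := h3 hγ h ε hε
      have h6 := h4 hγ h ε hε
      rw [Nat.cast_one, div_one] at h5
      rw [Nat.cast_ofNat] at h6
      simp only [← C1_eq, ← C2_eq] at h5 h6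
      exact ⟨h5, h6⟩
    filter_upwards [dense] with m h1 hm
    filter_upwards [h1 hm] with γ h2 hγ h
    have g1 : ∀ ε : ℝ, 0 < ε → Nearly 𝒩 fun n => |(sols m (C1 γ h) Pr n : ℝ) * Real.log n ^ 3 / n - 1| ≤ ε :=
      conv 𝒩 _ 1 zero_le_one le_rfl fun ε hε => (h2 hγ h ε hε).1
    have g2 : ∀ ε : ℝ, 0 < ε → Nearly 𝒩 fun n => |(sols m (C2 γ h) Pr n : ℝ) * Real.log n ^ 3 / n - 1 / 2| ≤ ε :=
      conv 𝒩 _ (1 / 2) (by norm_num) (by norm_num) fun ε hε => (h2 hγ h ε hε).2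
    exact ⟨fun ε hε => ⟨g1 ε hε, g2 ε hε⟩, exists_sol 𝒩 m _ 1 one_pos g1, exists_sol 𝒩 m _ (1 / 2) (by norm_num) g2⟩

end Pool.Agent.Results.MP_4011c3_nt.MetricSlopes
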