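import Pool.Agent.U847.BT
import Pool.Agent.N625.PT.S

/-!
# Primes `p < n` with `q = ⌊(n - p) / m⌋` prime and `q ^ 2 - 2` almost prime, for integers given by a context-free language

The integers `n` are all the integers near all the multiples `h q`, `h ≤ k ^ J`, of all the integers `q` near `c + κ v`, for
almost all the integers `v` whose `k` digits form a correctly nested word (several kinds of brackets and neutral digits).
Such a set can contain as few as `N ^ ε` integers below `N`, and it is not automatic.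

Method: exponential sums over the correctly nested words by a stack machine, a harmonic function of the stack and a
cancellation between the two ways to return to a stack in two steps (starting files, `Pool.Agent.N625.DY`). New here: a
frequency `θ` at which the exponential sum over the multiples `h v` is large differs little from a fraction with a small
denominator except at `O(log k)` of the digits, for all `h ≤ k ^ J` (`Pool.Agent.U847.TG`, `Pool.Agent.U847.TI`). The passage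
from such a description of the large frequencies to the primes is from the starting files (`Pool.Agent.N625.PT.t_gen`,
`Pool.Agent.H373R2.T7.PB`).

Nothing is used besides Mathlib in the statement.
-/

set_option autoImplicit false

namespace Pool.Agent.Results.MP_4011c3_nt.NestedWordMultiples
open Finset Polynomial Pool.Agent.H373R2.T7 Pool.Agent.H373R2.T7.TB Pool.Agent.H373R2.T7.PB

/-- `P` is a set of pairs of an opening digit and a closing digit which match each other, `E` is a set of neutral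
digits; the digits are smaller than `b`, no digit plays two of the three roles, and there is at least one pair.
(An opening digit can match several closing digits, and conversely.) -/
structure Alphabet (b : ℕ) (P : Finset (ℕ × ℕ)) (E : Finset ℕ) : Prop where
  lt : ∀ p ∈ P, p.1 < b ∧ p.2 < b
  ne : ∀ p ∈ P, ∀ p' ∈ P, p.1 ≠ p'.2
  neutral : ∀ a ∈ E, a < b ∧ ∀ p ∈ P, a ≠ p.1 ∧ a ≠ p.2
  nonempty : P.Nonempty

/-- The correctly nested words: the empty word; a neutral digit followed by a correctly nested word; and `o u c w`,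
where `u` and `w` are correctly nested words and the opening digit `o` matches the closing digit `c`. -/
inductive Balanced (P : Finset (ℕ × ℕ)) (E : Finset ℕ) : List ℕ → Prop
  | nil : Balanced P E []
  | neutral (a : ℕ) (w : List ℕ) : a ∈ E → Balanced P E w → Balanced P E (a :: w)
  | pair (o c : ℕ) (u w : List ℕ) : (o, c) ∈ P → Balanced P E u → Balanced P E w → Balanced P E (o :: (u ++ c :: w))

open Classical in
/-- The integers `v < b ^ k` whose `k` digits in base `b`, from the most significant to the least significant one (the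
digit number `i`, `0 ≤ i < k`, from the left is `v / b ^ (k - 1 - i) % b`), form a correctly nested word. -/
noncomputable def brackets (b : ℕ) (P : Finset (ℕ × ℕ)) (E : Finset ℕ) (k : ℕ) : Finset ℕ :=
  (range (b ^ k)).filter fun v => Balanced P E ((List.range k).map fun i => v / b ^ (k - 1 - i) % b)

/-- the pair `(m, n)` is admissible -/
def Admissible (m n : ℕ) : Prop :=
  2 * m + 1 < n ∧ ((m = 1 ∧ Even n) ∨ (m = 3 ∧ ¬ n ≡ 1 [MOD 6]) ∨ m = 2 ∨ 4 ≤ m)

/-- there is a prime `p < n` such that `q = ⌊(n - p) / m⌋` is prime, `q ^ 2 - 2` has no prime factor `ℓ` with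
`ℓ ^ K ≤ n`, and `q ^ 2 - 2` has fewer than `2 K` prime factors, counted with multiplicity -/
def Rep (K m n : ℕ) : Prop :=
  ∃ p q : ℕ, p.Prime ∧ p < n ∧ q = (n - p) / m ∧ q.Prime ∧
    (∀ ℓ : ℕ, ℓ.Prime → ℓ ∣ q ^ 2 - 2 → n < ℓ ^ K) ∧ (q ^ 2 - 2).primeFactorsList.length < 2 * K

lemma cop (N m k c : ℕ) (h : N + c = m * k ∨ N = m * k + c) (hc : Nat.Coprime c m) : Nat.Coprime N m := by
  by_contra hne
  obtain ⟨p, hp, hpN, hpm⟩ := Nat.Prime.not_coprime_iff_dvd.1 hne
  have h1 : p ∣ m * k := Dvd.dvd.mul_right hpm k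
  have h2 : p ∣ c := by
    rcases h with h | h
    · rw [← h] at h1
      exact (Nat.dvd_add_right hpN).1 h1
    · rw [h] at hpN
      exact (Nat.dvd_add_right h1).1 hpN
  exact (Nat.Prime.not_coprime_iff_dvd.2 ⟨p, hp, h2, hpm⟩) hc

lemma loc (m n : ℕ) (hm : 1 ≤ m) (h : Admissible m n) : ∃ r, r < m ∧ (n - r).Coprime m ∧ Odd (n - r + m) := by
  obtain ⟨hn, hcase⟩ := h
  have hdm := Nat.div_add_mod (n - 1) m
  have hlt := Nat.mod_lt (n - 1) (show 0 < m by omega)
  generalize hk : (n - 1) / m = k at *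
  generalize ha : (n - 1) % m = a at *
  rcases Nat.even_or_odd m with hme | hmo
  · refine ⟨a, hlt, ?_, ?_⟩
    · exact cop (n - a) m k 1 (Or.inr (by omega)) (Nat.coprime_one_left m)
    · have h1 : n - a = m * k + 1 := by omega
      rw [h1]
      have h2 : Even (m * k) := hme.mul_right k
      obtain ⟨t, ht⟩ := h2
      obtain ⟨s, hs⟩ := hme
      exact ⟨t + s, by omega⟩
  · have h2m : Nat.Coprime 2 m := Nat.coprime_two_left.2 hmo
    obtain ⟨s, hs⟩ := hmo
    rcases Nat.eq_zero_or_pos a with ha0 | ha0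
    · rcases Nat.even_or_odd n with hne | hno
      · obtain ⟨t, ht⟩ := hne
        refine ⟨0, by omega, ?_, ⟨t + s, by omega⟩⟩
        rw [Nat.sub_zero]
        exact cop n m k 1 (Or.inr (by omega)) (Nat.coprime_one_left m)
      · obtain ⟨t, ht⟩ := hno
        have hm5 : 5 ≤ m := by
          rcases hcase with ⟨_, ⟨u, hu⟩⟩ | ⟨h3, h6⟩ | h2 | h4
          · omega
          · exfalso
            apply h6
            unfold Nat.ModEq
            subst h3
            omega
          · omega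
          · omega
        refine ⟨3, by omega, ?_, ⟨t + s - 1, by omega⟩⟩
        exact cop (n - 3) m k 2 (Or.inl (by omega)) h2m
    · rcases Nat.even_or_odd (n - a) with hne | hno
      · obtain ⟨t, ht⟩ := hne
        refine ⟨a, hlt, ?_, ⟨t + s, by omega⟩⟩
        exact cop (n - a) m k 1 (Or.inr (by omega)) (Nat.coprime_one_left m)
      · obtain ⟨t, ht⟩ := hno
        refine ⟨a - 1, by omega, ?_, ⟨t + s + 1, by omega⟩⟩
        exact cop (n - (a - 1)) m k 2 (Or.inr (by omega)) h2m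

/-- the polynomial `X ^ 2 - 2` -/
noncomputable def FF : Fin 1 → ℤ[X] := fun _ => X ^ 2 - C 2

lemma FF_deg (i : Fin 1) : (FF i).natDegree = 2 := by
  unfold FF
  exact natDegree_X_pow_sub_C

lemma FF_lc (i : Fin 1) : 0 < (FF i).leadingCoeff := by
  unfold FF
  rw [leadingCoeff_X_pow_sub_C (by norm_num)]
  norm_num

lemma FF_eval (i : Fin 1) (n : ℤ) : (FF i).eval n = n ^ 2 - 2 := by
  unfold FF
  simp

lemma GG_eval (m : ℕ) (n : ℤ) : (C (m : ℤ) * X : ℤ[X]).eval n = m * n := by simp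

lemma prod_eF (n : ℤ) : (∏ i, (PArg.eF FF i).eval n) = n * (n ^ 2 - 2) := by
  rw [Fin.prod_univ_succ, Fin.prod_univ_one]
  have h1 : (PArg.eF FF 0) = X := by unfold PArg.eF; simp
  have h2 : (PArg.eF FF (Fin.succ 0)) = FF 0 := by unfold PArg.eF; simp
  rw [h1, h2, FF_eval, eval_X]

lemma noFixed (m N : ℕ) (hcop : N.Coprime m) (hodd : Odd (N + m)) : NoFixed (PArg.eF FF) (C (m : ℤ) * X) N := by
  intro p hp
  have hpp : Prime (p : ℤ) := Nat.prime_iff_prime_int.1 hp
  have hp1 : ¬ (p : ℤ) ∣ 1 := fun h => hpp.not_isUnit (isUnit_of_dvd_one h)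
  simp only [prod_eF, GG_eval]
  by_cases h1 : (p : ℤ) ∣ (N : ℤ) - m * 1
  · refine ⟨-1, ?_⟩
    have e : (-1 : ℤ) * ((-1) ^ 2 - 2) * ((N : ℤ) - m * (-1)) = N + m := by ring
    rw [e]
    intro h2
    have h3 : (p : ℤ) ∣ 2 * N := by
      have := dvd_add h1 h2
      have e2 : (N : ℤ) - m * 1 + (N + m) = 2 * N := by ring
      rwa [e2] at this
    have h4 : (p : ℤ) ∣ 2 * m := by
      have := dvd_sub h2 h1
      have e2 : (N : ℤ) + m - (N - m * 1) = 2 * m := by ring
      rwa [e2] at this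
    by_cases hp2 : p = 2
    · subst hp2
      have h5 : (2 : ℕ) ∣ N + m := by exact_mod_cast h2
      obtain ⟨t, ht⟩ := hodd
      omega
    · have h6 : ¬ (p : ℤ) ∣ 2 := by
        intro h7
        have h8 : p ∣ 2 := by exact_mod_cast h7
        exact hp2 ((Nat.prime_dvd_prime_iff_eq hp Nat.prime_two).1 h8)
      have h7 : p ∣ N := by exact_mod_cast (hpp.dvd_or_dvd h3).resolve_left h6
      have h8 : p ∣ m := by exact_mod_cast (hpp.dvd_or_dvd h4).resolve_left h6
      exact (Nat.Prime.not_coprime_iff_dvd.2 ⟨p, hp, h7, h8⟩) hcop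
  · refine ⟨1, ?_⟩
    have e : (1 : ℤ) * (1 ^ 2 - 2) * ((N : ℤ) - m * 1) = -((N : ℤ) - m * 1) := by ring
    rw [e, dvd_neg]
    exact h1

lemma len_bound (K n : ℕ) : ∀ l : List ℕ, (∀ a ∈ l, n < a ^ K) → (n + 1) ^ l.length ≤ l.prod ^ K := by
  intro l
  induction l with
  | nil => intro _; simp
  | cons a l ih =>
    intro h
    rw [List.length_cons, List.prod_cons, pow_succ, mul_comm, mul_pow]
    apply Nat.mul_le_mul
    · exact h a (by simp)
    · exact ih fun b hb => h b (by simp [hb])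

lemma bal_iff (P : Finset (ℕ × ℕ)) (E : Finset ℕ) (w : List ℕ) : Balanced P E w ↔ Pool.Agent.N625.DY.Balanced P E w := by
  constructor
  · intro h
    induction h with
    | nil => exact .nil
    | neutral a w h1 _ ih => exact .neutral a w h1 ih
    | pair o c u w h1 _ _ ih1 ih2 => exact .pair o c u w h1 ih1 ih2
  · intro h
    induction h with
    | nil => exact .nil
    | neutral a w h1 _ ih => exact .neutral a w h1 ih
    | pair o c u w h1 _ _ ih1 ih2 => exact .pair o c u w h1 ih1 ih2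

lemma brackets_eq (b : ℕ) (P : Finset (ℕ × ℕ)) (E : Finset ℕ) (k : ℕ) :
    brackets b P E k = Pool.Agent.N625.DY.brackets b P E k := by
  classical
  unfold brackets Pool.Agent.N625.DY.brackets Pool.Agent.N625.DY.word
  ext v
  rw [mem_filter, mem_filter, bal_iff]

open Classical in
/-- from a positive weighted sum to a representation -/
lemma rep_of_pos (K m n r y x : ℕ) (hK : 1 ≤ K) (hm : 1 ≤ m) (hr : r < m) (hn : r < n) (hy : ∀ ℓ : ℕ, ℓ ^ K ≤ n → ℓ ≤ y)
    (h : 0 < WP FF (C (m : ℤ) * X) (n - r) y x) : Rep K m n := by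
  unfold WP at h
  obtain ⟨q, hq⟩ : ∃ q, q ∈ (Icc 1 x).filter (fun p : ℕ => p.Prime ∧ (((n - r : ℕ) : ℤ) - (C (m : ℤ) * X : ℤ[X]).eval (p : ℤ)).toNat.Prime ∧ Rough FF y p) := by
    by_contra hne
    push Not at hne
    rw [eq_empty_of_forall_notMem hne, sum_empty] at h
    exact lt_irrefl _ h
  rw [mem_filter] at hq
  obtain ⟨_, hqp, hpp, hR⟩ := hq
  rw [GG_eval] at hpp
  obtain ⟨p, hp⟩ : ∃ p, p = (((n - r : ℕ) : ℤ) - m * q).toNat := ⟨_, rfl⟩
  rw [← hp] at hpp
  have hp2 := hpp.two_le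
  have hpz : (p : ℤ) = ((n - r : ℕ) : ℤ) - m * q := by
    rw [hp]
    apply Int.toNat_of_nonneg
    omega
  have hpn : p + m * q = n - r := by
    have : (p : ℤ) + m * q = ((n - r : ℕ) : ℤ) := by linarith
    exact_mod_cast this
  have hq2 := hqp.two_le
  have hmq : q ≤ m * q := Nat.le_mul_of_pos_left _ (by omega)
  have hnp : n - p = r + m * q := by omega
  have hqe : q = (n - p) / m := by
    rw [hnp, Nat.add_mul_div_left _ _ (by omega), Nat.div_eq_of_lt hr, zero_add]
  have hqn : q < n := by omega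
  have h4 : 2 ≤ q ^ 2 := by nlinarith
  have hrough : ∀ ℓ : ℕ, ℓ.Prime → ℓ ∣ q ^ 2 - 2 → n < ℓ ^ K := by
    intro ℓ hℓ hd
    by_contra hle
    push Not at hle
    apply hR ℓ hℓ (hy ℓ hle) 0
    rw [FF_eval]
    have h5 : ((ℓ : ℕ) : ℤ) ∣ ((q ^ 2 - 2 : ℕ) : ℤ) := by exact_mod_cast hd
    push_cast [Nat.cast_sub h4] at h5
    exact h5
  refine ⟨p, q, hpp, by omega, hqe, hqp, hrough, ?_⟩
  by_contra hlen
  push Not at hlen
  have h5 := len_bound K n (q ^ 2 - 2).primeFactorsList (fun a ha => hrough a (Nat.prime_of_mem_primeFactorsList ha) (Nat.dvd_of_mem_primeFactorsList ha))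
  have h6 : q ^ 2 - 2 ≠ 0 := by
    have : 4 ≤ q ^ 2 := by nlinarith
    omega
  rw [Nat.prod_primeFactorsList h6] at h5
  have h7 : (n + 1) ^ (2 * K) ≤ (q ^ 2 - 2) ^ K := le_trans (Nat.pow_le_pow_right (by omega) hlen) h5
  have h8 : (q ^ 2 - 2) ^ K < ((n + 1) ^ 2) ^ K := by
    apply Nat.pow_lt_pow_left _ (by omega)
    have : q ^ 2 < (n + 1) ^ 2 := Nat.pow_lt_pow_left (by omega) (by norm_num)
    omega
  rw [← pow_mul] at h8
  omega

/-- the property of `N = n - r` -/
def PN (T : ℕ) (a : ℕ × ℕ) (N : ℕ) : Prop :=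
  N.Coprime a.1 → Odd (N + a.1) → N ≤ a.2 ^ T ∧ 0 < WP FF (C (a.1 : ℤ) * X) N a.2 N

lemma det_N : ∃ K : ℕ, 1 ≤ K ∧ ∀ J T : ℕ, Pool.Agent.N625.PT.Det (Pool.Agent.N625.PT.AdP J K T) (PN T) := by
  obtain ⟨K, hK, hmain⟩ := Pool.Agent.N625.PT.det_P 3 (1 / 2) (by norm_num)
  refine ⟨K, hK, fun J T => ?_⟩
  refine hmain 1 FF (fun i => by rw [FF_deg]; norm_num) FF_lc (by rw [Fin.sum_univ_one, FF_deg]) J T (PN T) ?_
  obtain ⟨n1, h1⟩ := ev_log' (J + 1) 2
  obtain ⟨n2, h2⟩ := ev_L' 1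
  refine ⟨n1 + n2 + 4, fun N hN m z y hm hmJ hz hzy hyK hNT hasy hcop hodd => ⟨hNT, ?_⟩⟩
  simp only at hcop hodd ⊢
  have a1 := h1 N (by omega)
  have a2 := h2 N (by omega)
  have hNF := noFixed m N hcop hodd
  have h3 := hasy hNF
  have hN0 : (0 : ℝ) < N := by exact_mod_cast (by omega : 0 < N)
  have hmN : 2 * m ≤ N := by
    have h4 : 2 * (m : ℝ) ≤ √(N : ℝ) := by linarith
    have h5 : √(N : ℝ) ≤ N := by
      rw [Real.sqrt_le_left hN0.le]
      have : (1 : ℝ) ≤ N := by exact_mod_cast (by omega : 1 ≤ N)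
      nlinarith
    have h6 : ((2 * m : ℕ) : ℝ) ≤ N := by push_cast; linarith
    exact_mod_cast h6
  have hX : 0 < SHN.XCount (C (m : ℤ) * X) N N := by
    rw [Pool.Agent.N625.PT.XCount_mul m N hm (by omega)]
    apply Nat.div_pos (by omega) (by omega)
  have h6 := TP_pos FF (C (m : ℤ) * X) N z y N hzy hNF hX
  have h7 := (abs_le.1 h3).1
  linarith

open Classical in
/-- the classes of random integers -/
theorem core : ∃ K : ℕ, 1 ≤ K ∧ ∀ (b : ℕ) (κ : ℤ) (CC : ℕ → (ℕ → ℝ) → Prop), Pool.Agent.N625.PT.TCls b κ CC →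
    ∀ B J W U : ℕ, ∃ k₀ : ℕ, ∀ k : ℕ, k₀ ≤ k → ∀ p : ℕ → ℝ, CC k p → ∀ c : ℤ, |c| ≤ B * (b : ℤ) ^ k →
      ∑ v ∈ range (b ^ k), (if ∀ q : ℤ, |q - (c + κ * v)| ≤ (k : ℤ) ^ W → ∀ h : ℕ, 1 ≤ h → h ≤ k ^ J →
        ∀ n : ℕ, |(n : ℤ) - h * q| ≤ (k : ℤ) ^ W → ∀ m : ℕ, 1 ≤ m → m ≤ k ^ J → Admissible m n → Rep K m n
          then 0 else p v) ≤ 1 / (k : ℝ) ^ U := by
  obtain ⟨K, hK, hdet⟩ := det_N
  refine ⟨8 * K + 1, by omega, fun b κ CC hC B J W U => ?_⟩
  have hb := hC.two
  obtain ⟨k₀, hmain⟩ := Pool.Agent.N625.PT.t_gen hC B J (W + J + 1) (U + J + 0 + 1) _ _ (hdet (J + 1) (8 * K))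
  obtain ⟨z0, hz0⟩ : ∃ z0 : ℕ, z0 = 2 ^ (J + 1) := ⟨_, rfl⟩
  refine ⟨k₀ + z0 + 2 * K + 4, fun k hk p hp c hc => ?_⟩
  have hk2 : 2 ^ (J + 1) ≤ k := by rw [← hz0]; omega
  have hk4 : 4 ≤ k := by omega
  obtain ⟨y, hy⟩ : ∃ y, y = b ^ (k / (2 * K)) := ⟨_, rfl⟩
  have hkK : 1 ≤ k / (2 * K) := Nat.div_pos (by omega) (by omega)
  have hy2 : 2 ≤ y := by
    rw [hy]
    calc 2 ≤ b := hb
      _ = b ^ 1 := (pow_one b).symm
      _ ≤ b ^ (k / (2 * K)) := Nat.pow_le_pow_right (by omega) hkK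
  refine Pool.Agent.N625.PT.union J 0 U k (by omega) (b ^ k) p (hC.nonneg k p hp)
    (fun m _ v => ¬ ∀ q : ℤ, |q - (c + κ * v)| ≤ (k : ℤ) ^ W → ∀ h : ℕ, 1 ≤ h → h ≤ k ^ J →
        ∀ n : ℕ, |(n : ℤ) - h * q| ≤ (k : ℤ) ^ W → Admissible m n → Rep (8 * K + 1) m n) _ ?_ ?_
  · intro v hv
    push Not at hv
    obtain ⟨q, hq, h, hh1, hh2, n, hn, m, hm1, hm2, hadm, hrep⟩ := hv
    refine ⟨m, hm1, hm2, 0, by simp, ?_⟩
    push Not
    exact ⟨q, hq, h, hh1, hh2, n, hn, hadm, hrep⟩
  · intro m hm1 hm2 _ _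
    have hAd : ∀ K' : ℕ, k ≤ K' → K' ≤ 2 * k → Pool.Agent.N625.PT.AdP (J + 1) K (8 * K) (b ^ K') (m, y) := by
      intro K' hK1 hK2
      refine ⟨hm1, ?_, ?_, ?_⟩
      · simp only
        have hbr : (2 : ℝ) ≤ b := by exact_mod_cast hb
        have hl : (k : ℝ) / 2 ≤ Real.log ((b ^ K' : ℕ) : ℝ) := by
          push_cast
          rw [Real.log_pow]
          have g1 : (1 : ℝ) / 2 ≤ Real.log b := by
            have := Real.log_two_gt_d9
            have := Real.log_le_log (by norm_num) hbr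
            linarith
          have g2 : (k : ℝ) ≤ K' := by exact_mod_cast hK1
          have g3 : (0 : ℝ) ≤ k := Nat.cast_nonneg _
          nlinarith
        have hk0 : (0 : ℝ) < k := by exact_mod_cast (by omega : 0 < k)
        calc (m : ℝ) ≤ (k : ℝ) ^ J := by exact_mod_cast hm2
          _ ≤ ((k : ℝ) / 2) ^ (J + 1) := by
              rw [div_pow, le_div_iff₀ (by positivity), pow_succ (k : ℝ)]
              apply mul_le_mul_of_nonneg_left _ (by positivity)
              exact_mod_cast hk2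
          _ ≤ Real.log ((b ^ K' : ℕ) : ℝ) ^ (J + 1) := pow_le_pow_left₀ (by positivity) hl _
      · simp only
        rw [hy, ← pow_mul]
        apply Nat.pow_le_pow_right (by omega)
        exact (Nat.div_mul_le_self k (2 * K)).trans hK1
      · simp only
        rw [hy, ← pow_mul]
        apply Nat.pow_le_pow_right (by omega)
        have h5 := Nat.lt_div_mul_add (a := k) (b := 2 * K) (by omega)
        have h6 : k / (2 * K) * (2 * K) + 2 * K ≤ 2 * (k / (2 * K) * (2 * K)) := by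
          have : 2 * K ≤ k / (2 * K) * (2 * K) := Nat.le_mul_of_pos_left _ hkK
          omega
        calc K' ≤ 2 * k := hK2
          _ ≤ 2 * (2 * (k / (2 * K) * (2 * K))) := by omega
          _ = k / (2 * K) * (8 * K) := by ring
    refine le_trans (le_of_eq ?_) (hmain k (by omega) p hp c hc (m, y) hAd
      (fun v => ∀ q : ℤ, |q - (c + κ * v)| ≤ (k : ℤ) ^ W → ∀ h : ℕ, 1 ≤ h → h ≤ k ^ J →
        ∀ n : ℕ, |(n : ℤ) - h * q| ≤ (k : ℤ) ^ W → Admissible m n → Rep (8 * K + 1) m n) ?_)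
    · apply sum_congr rfl
      intro v _
      by_cases hv : ∀ q : ℤ, |q - (c + κ * v)| ≤ (k : ℤ) ^ W → ∀ h : ℕ, 1 ≤ h → h ≤ k ^ J →
        ∀ n : ℕ, |(n : ℤ) - h * q| ≤ (k : ℤ) ^ W → Admissible m n → Rep (8 * K + 1) m n
      · rw [if_neg (not_not.2 hv), if_pos hv]
      · rw [if_pos hv, if_neg hv]
    · intro v hv
      push Not at hv
      obtain ⟨q, hq, h, hh1, hh2, n, hn, hadm, hrep⟩ := hv
      obtain ⟨r, hr, hcop, hodd⟩ := loc m n hm1 hadm
      have hn2 := hadm.1
      have hkz : (1 : ℤ) ≤ (k : ℤ) := by exact_mod_cast (by omega : 1 ≤ k)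
      have hkW : (k : ℤ) ^ W ≤ (k : ℤ) ^ (W + J + 1) := pow_le_pow_right₀ hkz (by omega)
      refine ⟨h, hh1, hh2, q - (c + κ * v), hq.trans hkW, (n : ℤ) - r - h * q, ?_, ?_, ?_⟩
      · have e1 : (n : ℤ) - r - h * q = ((n : ℤ) - h * q) - r := by ring
        have e2 : |((n : ℤ) - h * q) - r| ≤ |(n : ℤ) - h * q| + r := by
          refine (abs_sub _ _).trans (le_of_eq ?_)
          rw [Nat.abs_cast]
        have e3 : (r : ℤ) ≤ (k : ℤ) ^ J := by
          have : r ≤ k ^ J := by omega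
          exact_mod_cast this
        rw [e1]
        refine e2.trans ?_
        have e4 : (k : ℤ) ^ W ≤ (k : ℤ) ^ (W + J) := pow_le_pow_right₀ hkz (by omega)
        have e5 : (k : ℤ) ^ J ≤ (k : ℤ) ^ (W + J) := pow_le_pow_right₀ hkz (by omega)
        have e6 : (4 : ℤ) ≤ k := by exact_mod_cast hk4
        have e7 : 0 < (k : ℤ) ^ (W + J) := by positivity
        rw [pow_succ]
        nlinarith
      · have e1 : (h : ℤ) * (c + (q - (c + κ * v)) + κ * v) + ((n : ℤ) - r - h * q) = n - r := by ring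
        rw [e1]
        have : (r : ℤ) < n := by exact_mod_cast (by omega : r < n)
        linarith
      · have e1 : (h : ℤ) * (c + (q - (c + κ * v)) + κ * v) + ((n : ℤ) - r - h * q) = ((n - r : ℕ) : ℤ) := by
          rw [Nat.cast_sub (by omega)]
          ring
        rw [e1, Int.toNat_natCast]
        intro hP
        apply hrep
        obtain ⟨hle, hpos⟩ := hP hcop hodd
        simp only at hle hpos
        refine rep_of_pos (8 * K + 1) m n r y (n - r) (by omega) hm1 hr (by omega) ?_ hpos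
        intro ℓ hℓ
        have h6 : n ≤ 2 * (n - r) := by omega
        have h7 : ℓ ^ (8 * K + 1) ≤ y ^ (8 * K + 1) := by
          calc ℓ ^ (8 * K + 1) ≤ n := hℓ
            _ ≤ 2 * (n - r) := h6
            _ ≤ y * y ^ (8 * K) := Nat.mul_le_mul hy2 hle
            _ = y ^ (8 * K + 1) := by rw [pow_succ]; ring
        exact (Nat.pow_le_pow_iff_left (by omega)).1 h7

open Classical in
/-- There is a constant `K` with the following property. Let the matching pairs `P` of digits and the neutral digits `E` in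
base `b`, and `κ ≠ 0`, `B`, `J`, `W` and `U` be fixed, let `k` be large and let `c` be an integer with `|c| ≤ B b ^ k`. Then
for all the integers `v` whose `k` digits form a correctly nested word, with the exception of a proportion of at most
`1 / k ^ U` of them, the following holds for ALL the integers `n` with `|n - h q| ≤ k ^ W` for some `q` with
`|q - (c + κ v)| ≤ k ^ W` and some `1 ≤ h ≤ k ^ J`, and for ALL `1 ≤ m ≤ k ^ J`: if the pair `(m, n)` is admissible, there is a
prime `p < n` such that `q = ⌊(n - p) / m⌋` is prime, `q ^ 2 - 2` has no prime factor `ℓ` with `ℓ ^ K ≤ n`, and `q ^ 2 - 2` has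
fewer than `2 K` prime factors. -/
theorem result : ∃ K : ℕ, 1 ≤ K ∧ ∀ (b : ℕ) (P : Finset (ℕ × ℕ)) (E : Finset ℕ), Alphabet b P E → ∀ κ : ℤ, κ ≠ 0 →
    ∀ B J W U : ℕ, ∃ k₀ : ℕ, ∀ k : ℕ, k₀ ≤ k → ∀ c : ℤ, |c| ≤ B * (b : ℤ) ^ k →
      (((brackets b P E k).filter fun v : ℕ => ¬ ∀ q : ℤ, |q - (c + κ * v)| ≤ (k : ℤ) ^ W → ∀ h : ℕ, 1 ≤ h → h ≤ k ^ J →
        ∀ n : ℕ, |(n : ℤ) - h * q| ≤ (k : ℤ) ^ W → ∀ m : ℕ, 1 ≤ m → m ≤ k ^ J → Admissible m n → Rep K m n).card : ℝ) ≤
        (brackets b P E k).card / (k : ℝ) ^ U := by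
  obtain ⟨K, hK, h0⟩ := core
  refine ⟨K, hK, fun b P E hA κ hκ B J W U => ?_⟩
  have hA' : Pool.Agent.N625.DY.Alphabet b P E := ⟨hA.lt, hA.ne, hA.neutral, hA.nonempty⟩
  obtain ⟨k₀, h1⟩ := h0 b κ _ (Pool.Agent.U847.TI.br_tcls hA' κ hκ) B J W U
  refine ⟨k₀, fun k hk c hc => ?_⟩
  simp only [brackets_eq]
  exact Pool.Agent.U847.BT.br_num hA' _ (fun p hp => h1 k hk p hp c hc)

end Pool.Agent.Results.MP_4011c3_nt.NestedWordMultiples
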