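import Pool.Agent.U308.LP.Multi
import Pool.Agent.Results.MP_4011c3_nt.SmoothNumbers

/-!
# Primes `p < n` for which `⌊(n - p) / m⌋` is prime, for all `n` near almost all very smooth numbers

Definitions used: from the starting file `Pool.Agent.Results.MP_4011c3_nt.SmoothNumbers`: `Admissible m n`: the definition of the
problem; `reps m n`: the number of the primes `p < n` for which `⌊(n - p) / m⌋` is prime; `main N m n`: the expected number;
`Holds ε M N n`: for all `m ≤ M` the number `reps m n` is `main N m n` up to a relative error of at most `ε` (and up to `2 m`),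
and there is such a prime if `(m, n)` is admissible; `composedOf P N`: the integers `1 ≤ v ≤ N` all of whose prime factors belong
to `P`; `smooth y N`: the `y`-smooth integers `1 ≤ v ≤ N`.

Method (helper308). The starting result `SmoothNumbers` has the same assertion for `y ≥ log ^ (2 + δ) N` (and for sets
`P` with at least `y ^ (1 / 2 + δ) log N` elements). Below `log ^ 2 N` the exponential sum over the integers composed of primes
from `P` cannot be bounded in the same way. New here is a weight `w(v)`, the number of the representations `v = m₁ m₂ u`, where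
`m₁` and `m₂` are products of `h` different primes from one dyadic class of `P` with more elements than the square root of the
primes, and `u` is composed of primes from `P`: the weighted exponential sum is small except near few rational numbers with
small denominators (`Pool.Agent.U308.SH.chain`, `Pool.Agent.U308.SH.bilin`, `Pool.Agent.U308.SG.exp_rr`), and `w(v)` is at least
`1 / log N` of its mean value for almost all `v` (`Pool.Agent.U308.SG.structB`, `Pool.Agent.U308.SG.dom2`), so that a property
which holds with the weight `w` for almost all `v` holds for almost all `v` (`Pool.Agent.U308.TL.sm_tlaw2`, `dom_le`). The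
second moment argument for the primes and their linear forms is from the starting files.
-/

set_option autoImplicit false

namespace Pool.Agent.Results.MP_4011c3_nt.VerySmoothNumbers

open Finset
open Pool.Agent.Results.MP_4011c3_nt.SmoothNumbers (Admissible reps offsets main Holds composedOf smooth holds_of one_offset)

open Classical in
/-- Let `A`, `B`, `M`, `W`, `U`, `K`, the integer `κ ≠ 0`, `0 < ε < 1` and `δ > 0` be fixed, let `N` be large,
`y ≤ log ^ K N`, and let `c` be an arbitrary integer with `|c| ≤ B N`.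

(1) Let `P` be an arbitrary set of primes which are at most `y`, with at least `y ^ (1 / 2 + δ)` and at least `log ^ (1 + δ) N` elements. Then
for all the integers `v ≤ N` composed of primes from `P`, up to a proportion of at most `1 / log ^ U N` of them,
all `n = c + κ v + r` with `|r| ≤ (log N) ^ A` and `N / (log N) ^ W ≤ n ≤ B N` satisfy `Holds`: for all `m ≤ M` the number of
the primes `p < n` for which `⌊(n - p) / m⌋` is prime is asymptotically the expected number, and there are such primes if the
pair `(m, n)` is admissible. (There can be fewer than `N ^ δ` such integers `v`.)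

(2) In particular this holds for all the `y`-smooth integers `v ≤ N`, up to a proportion of at most `1 / log ^ U N` of them,
if `y ≥ log ^ (1 + δ) N`. (For example for all `n` near `v` itself.) -/
theorem result (A B M W U K : ℕ) (κ : ℤ) (hκ : κ ≠ 0) (ε : ℝ) (hε : 0 < ε) (hε1 : ε < 1) (δ : ℝ) (hδ : 0 < δ) :
    ∃ N₀ : ℕ, ∀ N, N₀ ≤ N → ∀ y : ℕ, (y : ℝ) ≤ Real.log N ^ K → ∀ c : ℤ, |c| ≤ B * N →
      (∀ P : Finset ℕ, (∀ p ∈ P, p.Prime ∧ p ≤ y) → (y : ℝ) ^ (1 / 2 + δ) ≤ P.card → Real.log N ^ (1 + δ) ≤ P.card →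
        (((composedOf P N).filter fun v : ℕ => ∃ r : ℤ, |(r : ℝ)| ≤ Real.log N ^ A ∧ ∃ n : ℕ, (n : ℤ) = c + κ * v + r ∧
          (N : ℝ) / Real.log N ^ W ≤ n ∧ n ≤ B * N ∧ ¬ Holds ε M N n).card : ℝ) ≤ ((composedOf P N).card : ℝ) / Real.log N ^ U) ∧
      (Real.log N ^ (1 + δ) ≤ y →
        (((smooth y N).filter fun v : ℕ => ∃ r : ℤ, |(r : ℝ)| ≤ Real.log N ^ A ∧ ∃ n : ℕ, (n : ℤ) = c + κ * v + r ∧
          (N : ℝ) / Real.log N ^ W ≤ n ∧ n ≤ B * N ∧ ¬ Holds ε M N n).card : ℝ) ≤ ((smooth y N).card : ℝ) / Real.log N ^ U) := by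
  obtain ⟨N₀, h0⟩ := Pool.Agent.U308.TL.both2 δ hδ K U _
    (fun δ hδ => Pool.Agent.U308.LP.sm_multi2 (ε / 3) (by positivity) κ hκ K B (A + 1) 0 (W + 1) δ hδ M U)
  obtain ⟨N₁, h1⟩ := one_offset ε hε B M W
  obtain ⟨N₂, h2⟩ := Pool.Agent.H373R2.T7.ev_L' (M + 2)
  refine ⟨N₀ + N₁ + N₂, fun N hN y hy' c hc => ?_⟩
  refine h0 N (by omega) y hy' (fun v : ℕ => ∃ r : ℤ, |(r : ℝ)| ≤ Real.log N ^ A ∧ ∃ n : ℕ, (n : ℤ) = c + κ * v + r ∧
          (N : ℝ) / Real.log N ^ W ≤ n ∧ n ≤ B * N ∧ ¬ Holds ε M N n) (fun v => inferInstance) ⟨c, hc, ?_⟩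
  rintro v ⟨r, hr, n, hnr, hn1, hn2, hnot⟩
  have hL := h2 N (by omega)
  by_contra hcon
  push Not at hcon
  apply hnot
  apply holds_of ε hε hε1
  intro m j hm hmM hj
  obtain ⟨g1, g2⟩ := h1 N (by omega) n hn1 hn2 m j hm hmM hj
  refine ⟨g1, fun hcp => g2 ?_⟩
  obtain ⟨hcop, hodd⟩ := hcp
  have e : c + κ * (v : ℤ) + (r - j) = ((n - j : ℕ) : ℤ) := by
    rw [Nat.cast_sub g1.le, hnr]
    ring
  have hrj : |((r - j : ℤ) : ℝ)| ≤ Real.log N ^ (A + 1) := by
    push_cast
    have q1 : |(r : ℝ) - j| ≤ |(r : ℝ)| + j := by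
      have := abs_sub (r : ℝ) (j : ℝ)
      rwa [abs_of_nonneg (Nat.cast_nonneg j : (0 : ℝ) ≤ j)] at this
    have q2 : (j : ℝ) ≤ M := by exact_mod_cast (by omega : j ≤ M)
    have q3 : 1 ≤ Real.log N ^ A := one_le_pow₀ (by
      have : (0 : ℝ) ≤ M := Nat.cast_nonneg _
      linarith)
    have q4 : (0 : ℝ) ≤ M := Nat.cast_nonneg _
    rw [pow_succ]
    nlinarith
  have h3 := hcon m hm hmM (r - j) hrj
  rw [e] at h3
  apply h3
  · exact_mod_cast (by omega : n - j ≠ 0)
  · rw [Int.gcd_comm, Int.gcd_neg, Int.gcd_natCast_natCast]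
    exact hcop
  · rw [neg_mul, dvd_neg]
    have q1 : 2 ∣ m * (n - j) := by
      rcases Nat.even_or_odd m with h5 | h5
      · exact Dvd.dvd.mul_right h5.two_dvd _
      · have h6 : Even (n - j) := by
          rw [← Nat.not_odd_iff_even]
          intro h7
          exact (Nat.not_even_iff_odd.2 hodd) (h7.add_odd h5)
        exact Dvd.dvd.mul_left h6.two_dvd _
    exact_mod_cast q1

end Pool.Agent.Results.MP_4011c3_nt.VerySmoothNumbers
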